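import Pool.Agent.Helper57.Ced.Lift

open Finset

namespace Pool.Agent.Helper57.Ced

/-! ### Appending ears -/

section Build

variable {V : Type*} [DecidableEq V] {d : ℕ}

/-- `Γ` is the face set of a complex built by a convex ear decomposition -/
def CED (d : ℕ) (Γ : Set (Finset V)) : Prop :=
  ∃ (m : ℕ) (S : ℕ → PreAbstractSimplicialComplex V), 0 < m ∧ (∀ j < m, IsPure d (S j)) ∧
    IsPolytopeBoundary d (S 0) ∧
    (∀ j, 0 < j → j < m → IsBall (d - 1) (S j)) ∧
    (∀ j, 0 < j → j < m → IsProperInPolytopeBoundary d (S j)) ∧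
    (∀ j, 0 < j → j < m → (S j).faces ∩ (⋃ i ∈ Set.Iio j, (S i).faces) = boundary d (S j)) ∧
    Γ = ⋃ i ∈ Set.Iio m, (S i).faces

/-- `E` can be appended to `Γ` -/
structure IsEar (d : ℕ) (Γ : Set (Finset V)) (E : PreAbstractSimplicialComplex V) : Prop where
  pure : IsPure d E
  ball : IsBall (d - 1) E
  proper : IsProperInPolytopeBoundary d E
  inter : E.faces ∩ Γ = boundary d E

lemma CED.base {E : PreAbstractSimplicialComplex V} (h1 : IsPure d E)
    (h2 : IsPolytopeBoundary d E) : CED d E.faces := by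
  refine ⟨1, fun _ => E, one_pos, fun _ _ => h1, h2, ?_, ?_, ?_, ?_⟩
  · intro j h3 h4; omega
  · intro j h3 h4; omega
  · intro j h3 h4; omega
  · ext s
    simp

lemma CED.add {Γ : Set (Finset V)} (h : CED d Γ) {E : PreAbstractSimplicialComplex V}
    (hE : IsEar d Γ E) : CED d (Γ ∪ E.faces) := by
  obtain ⟨m, S, h0, h1, h2, h3, h4, h5, h6⟩ := h
  have hlt : ∀ j, j < m → (fun i => if i < m then S i else E) j = S j := by
    intro j hj
    simp [hj]
  have hge : ∀ j, ¬ j < m → (fun i => if i < m then S i else E) j = E := by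
    intro j hj
    simp [hj]
  have hU : ∀ k, k ≤ m → (⋃ i ∈ Set.Iio k, ((fun i => if i < m then S i else E) i).faces) =
      ⋃ i ∈ Set.Iio k, (S i).faces := by
    intro k hk
    apply Set.iUnion₂_congr
    intro i hi
    rw [hlt i (lt_of_lt_of_le hi hk)]
  refine ⟨m + 1, fun i => if i < m then S i else E, by omega, ?_, ?_, ?_, ?_, ?_, ?_⟩
  · intro j _
    by_cases hj : j < m
    · rw [hlt j hj]; exact h1 j hj
    · rw [hge j hj]; exact hE.pure
  · rw [hlt 0 h0]; exact h2
  · intro j hj0 _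
    by_cases hj : j < m
    · rw [hlt j hj]; exact h3 j hj0 hj
    · rw [hge j hj]; exact hE.ball
  · intro j hj0 _
    by_cases hj : j < m
    · rw [hlt j hj]; exact h4 j hj0 hj
    · rw [hge j hj]; exact hE.proper
  · intro j hj0 hjm
    rw [hU j (by omega)]
    by_cases hj : j < m
    · rw [hlt j hj]; exact h5 j hj0 hj
    · have : j = m := by omega
      subst this
      rw [hge j hj, ← h6]; exact hE.inter
  · ext s
    simp only [Set.mem_union, Set.mem_iUnion, Set.mem_Iio, exists_prop]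
    rw [h6]
    simp only [Set.mem_iUnion, Set.mem_Iio, exists_prop]
    constructor
    · rintro (⟨i, hi, hs⟩ | hs)
      · exact ⟨i, by omega, by rw [if_pos hi]; exact hs⟩
      · exact ⟨m, by omega, by rw [if_neg (lt_irrefl m)]; exact hs⟩
    · rintro ⟨i, hi, hs⟩
      by_cases him : i < m
      · rw [if_pos him] at hs
        exact Or.inl ⟨i, him, hs⟩
      · rw [if_neg him] at hs
        exact Or.inr hs

lemma CED.addList (L : List (PreAbstractSimplicialComplex V)) : ∀ {Γ : Set (Finset V)},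
    CED d Γ → (∀ E ∈ L, IsEar d Γ E) → L.Pairwise (fun E F => E.faces ∩ F.faces ⊆ Γ) →
    CED d (Γ ∪ ⋃ E ∈ {E | E ∈ L}, E.faces) := by
  induction L with
  | nil =>
    intro Γ h _ _
    simpa using h
  | cons E L ih =>
    intro Γ h hear hpair
    rw [List.pairwise_cons] at hpair
    obtain ⟨hp1, hp2⟩ := hpair
    have h1 : CED d (Γ ∪ E.faces) := h.add (hear E (by simp))
    have h2 := ih h1 ?_ ?_
    · convert h2 using 1
      ext s
      simp only [Set.mem_union, Set.mem_iUnion, Set.mem_ofPred_eq, List.mem_cons, exists_prop]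
      constructor
      · rintro (hs | ⟨F, rfl | hF, hs⟩)
        · exact Or.inl (Or.inl hs)
        · exact Or.inl (Or.inr hs)
        · exact Or.inr ⟨F, hF, hs⟩
      · rintro ((hs | hs) | ⟨F, hF, hs⟩)
        · exact Or.inl hs
        · exact Or.inr ⟨E, Or.inl rfl, hs⟩
        · exact Or.inr ⟨F, Or.inr hF, hs⟩
    · intro F hF
      have hF' := hear F (List.mem_cons_of_mem _ hF)
      refine ⟨hF'.pure, hF'.ball, hF'.proper, ?_⟩
      rw [← hF'.inter]
      ext s
      simp only [Set.mem_inter_iff, Set.mem_union]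
      constructor
      · rintro ⟨hs1, hs2 | hs2⟩
        · exact ⟨hs1, hs2⟩
        · exact ⟨hs1, hp1 F hF ⟨hs2, hs1⟩⟩
      · rintro ⟨hs1, hs2⟩
        exact ⟨hs1, Or.inl hs2⟩
    · apply hp2.imp
      intro F G hFG
      exact hFG.trans Set.subset_union_left

end Build

/-! ### The levels of the base complex -/

/-- the vertices of `φ` with a nonzero label -/
def nz (φ : Finset VV) : Finset VV := φ.filter (fun v => v.2 ≠ 0)

lemma mem_nz {φ : Finset VV} {v : VV} : v ∈ nz φ ↔ v ∈ φ ∧ v.2 ≠ 0 := by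
  simp [nz]

lemma nz_subset (φ : Finset VV) : nz φ ⊆ φ := filter_subset _ _

/-- faces over the sphere with at most `k` nonzero labels -/
def Base (k : ℕ) : Set (Finset VV) :=
  {φ | φ.Nonempty ∧ (∀ v ∈ φ, ∀ w ∈ φ, v.1 = w.1 → v = w) ∧ InX (pos φ) ∧ (nz φ).card ≤ k}

/-- the labelling given by a set of vertices, `0` elsewhere -/
noncomputable def tl (T : Finset VV) (p : Fin 10) : Q :=
  open Classical in if h : ∃ q, (p, q) ∈ T then h.choose else 0

lemma tl_of_mem {T : Finset VV} (hT : ∀ v ∈ T, ∀ w ∈ T, v.1 = w.1 → v = w) {v : VV}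
    (hv : v ∈ T) : v.2 = tl T v.1 := by
  have h : ∃ q, (v.1, q) ∈ T := ⟨v.2, hv⟩
  unfold tl
  rw [dif_pos h]
  have := hT v hv _ h.choose_spec rfl
  exact congrArg Prod.snd this

lemma tl_of_not {T : Finset VV} {p : Fin 10} (h : ¬ ∃ q, (p, q) ∈ T) : tl T p = 0 := by
  unfold tl
  rw [dif_neg h]

lemma tl_mem {T : Finset VV} {p : Fin 10} (h : tl T p ≠ 0) : (p, tl T p) ∈ T := by
  unfold tl at h ⊢
  by_cases hc : ∃ q, (p, q) ∈ T
  · rw [dif_pos hc]; exact hc.choose_spec
  · rw [dif_neg hc] at h; exact absurd rfl h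

lemma lab_tl {T : Finset VV} (hT : ∀ v ∈ T, ∀ w ∈ T, v.1 = w.1 → v = w) : Lab (tl T) T :=
  fun _ hv => tl_of_mem hT hv

lemma inj_of_lab {t : Fin 10 → Q} {φ : Finset VV} (h : Lab t φ) :
    ∀ v ∈ φ, ∀ w ∈ φ, v.1 = w.1 → v = w := by
  intro v hv w hw hvw
  exact Prod.ext hvw (by rw [h v hv, h w hw, hvw])

/-- the index set of the ears of level `k + 1` -/
def IsT (k : ℕ) (T : Finset VV) : Prop :=
  (∀ v ∈ T, ∀ w ∈ T, v.1 = w.1 → v = w) ∧ (∀ v ∈ T, v.2 ≠ 0) ∧ InX (pos T) ∧ T.card = k + 1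

/-- the ear of `T` -/
noncomputable def earT (T : Finset VV) : PreAbstractSimplicialComplex VV :=
  liftM (starM (pos T)) (tl T)

lemma mem_earT {T φ : Finset VV} :
    φ ∈ (earT T).faces ↔ φ.Nonempty ∧ Lab (tl T) φ ∧ InX (pos φ ∪ pos T) := by
  unfold earT
  rw [mem_liftM, starM_faces]

lemma nz_subset_T {T φ : Finset VV} (hφ : Lab (tl T) φ) : nz φ ⊆ T := by
  intro v hv
  rw [mem_nz] at hv
  have h1 := hφ v hv.1
  have h2 : tl T v.1 ≠ 0 := by rw [← h1]; exact hv.2
  have h3 := tl_mem h2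
  rw [← h1] at h3
  exact h3

lemma pos_nonempty {T : Finset VV} (h : T.Nonempty) : (pos T).Nonempty := h.image _

lemma isEar_earT {k : ℕ} {T : Finset VV} (hT : IsT k T) : IsEar 4 (Base k) (earT T) := by
  obtain ⟨h1, h2, h3, h4⟩ := hT
  have hne : T.Nonempty := by rw [← card_pos, h4]; omega
  refine ⟨isPure_liftM (starM_card _) (starM_ne h3), isBall_star h3 (pos_nonempty hne) _,
    proper_star h3 (pos_nonempty hne) _, ?_⟩
  have hLT : Lab (tl T) T := lab_tl h1
  have key : ∀ φ ∈ (earT T).faces, (φ ∈ Base k ↔ ¬ pos T ⊆ pos φ) := by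
    intro φ hφ
    rw [mem_earT] at hφ
    obtain ⟨g1, g2, g3⟩ := hφ
    have hs := nz_subset_T g2
    have hiff : pos T ⊆ pos φ ↔ T ⊆ nz φ := by
      rw [← subset_iff_pos hLT g2]
      constructor
      · intro h v hv
        exact mem_nz.2 ⟨h hv, h2 v hv⟩
      · intro h
        exact h.trans (nz_subset φ)
    rw [hiff]
    constructor
    · rintro ⟨_, _, _, hc⟩ hsub
      have := card_le_card hsub
      omega
    · intro hsub
      refine ⟨g1, inj_of_lab g2, g3.mono subset_union_left, ?_⟩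
      have hlt : (nz φ).card < T.card := card_lt_card ⟨hs, hsub⟩
      omega
  ext φ
  constructor
  · rintro ⟨hφ, hb⟩
    exact (boundary_star φ hφ).2 ((key φ hφ).1 hb)
  · intro hφ
    have hφ' : φ ∈ (earT T).faces := hφ.1
    exact ⟨hφ', (key φ hφ').2 ((boundary_star φ hφ').1 hφ)⟩

lemma earT_inter {k : ℕ} {T T' : Finset VV} (hT : IsT k T) (hT' : IsT k T') (hne : T ≠ T') :
    (earT T).faces ∩ (earT T').faces ⊆ Base k := by
  rintro φ ⟨h1, h2⟩
  rw [mem_earT] at h1 h2
  obtain ⟨g1, g2, g3⟩ := h1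
  obtain ⟨_, g5, _⟩ := h2
  refine ⟨g1, inj_of_lab g2, g3.mono subset_union_left, ?_⟩
  have hs := nz_subset_T g2
  have hs' := nz_subset_T g5
  by_contra hc
  have e1 : nz φ = T := eq_of_subset_of_card_le hs (by rw [hT.2.2.2]; omega)
  have e2 : nz φ = T' := eq_of_subset_of_card_le hs' (by rw [hT'.2.2.2]; omega)
  exact hne (e1.symm.trans e2)

lemma base_zero : Base 0 = (liftM XM (fun _ => 0)).faces := by
  ext φ
  rw [mem_liftM]
  constructor
  · rintro ⟨h1, _, h3, h4⟩
    refine ⟨h1, ?_, h3⟩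
    intro v hv
    by_contra hc
    have : v ∈ nz φ := mem_nz.2 ⟨hv, hc⟩
    have := card_pos.2 ⟨v, this⟩
    omega
  · rintro ⟨h1, h2, h3⟩
    refine ⟨h1, inj_of_lab h2, h3, ?_⟩
    have : nz φ = ∅ := by
      ext v
      rw [mem_nz]
      constructor
      · rintro ⟨hv, hc⟩
        exact absurd (h2 v hv) hc
      · intro h; simp at h
    rw [this]; simp

lemma base_succ (k : ℕ) :
    Base (k + 1) = Base k ∪ ⋃ T ∈ {T | IsT k T}, (earT T).faces := by
  ext φ
  simp only [Set.mem_union, Set.mem_iUnion, Set.mem_ofPred_eq, exists_prop]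
  constructor
  · rintro ⟨h1, h2, h3, h4⟩
    by_cases hk : (nz φ).card ≤ k
    · exact Or.inl ⟨h1, h2, h3, hk⟩
    · right
      refine ⟨nz φ, ⟨?_, ?_, h3.mono (pos_mono (nz_subset φ)), by omega⟩, ?_⟩
      · intro v hv w hw
        exact h2 v (nz_subset φ hv) w (nz_subset φ hw)
      · intro v hv
        exact (mem_nz.1 hv).2
      · rw [mem_earT]
        refine ⟨h1, ?_, ?_⟩
        · intro v hv
          by_cases hv0 : v.2 = 0
          · rw [tl_of_not, hv0]
            rintro ⟨q, hq⟩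
            rw [mem_nz] at hq
            have := h2 v hv _ hq.1 rfl
            rw [this] at hv0
            exact hq.2 hv0
          · exact tl_of_mem (fun v hv w hw => h2 v (nz_subset φ hv) w (nz_subset φ hw))
              (mem_nz.2 ⟨hv, hv0⟩)
        · rw [union_eq_left.2 (pos_mono (nz_subset φ))]
          exact h3
  · rintro (⟨h1, h2, h3, h4⟩ | ⟨T, hT, hφ⟩)
    · exact ⟨h1, h2, h3, by omega⟩
    · rw [mem_earT] at hφ
      obtain ⟨g1, g2, g3⟩ := hφ
      refine ⟨g1, inj_of_lab g2, g3.mono subset_union_left, ?_⟩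
      have := card_le_card (nz_subset_T g2)
      rw [hT.2.2.2] at this
      exact this

lemma ced_base (k : ℕ) : CED 4 (Base k) := by
  classical
  induction k with
  | zero =>
    rw [base_zero]
    refine CED.base (isPure_liftM XM_card ?_) (polytope_X _)
    decide
  | succ k ih =>
    have h := CED.addList (((univ.filter (IsT k)).toList).map earT) ih ?_ ?_
    · rw [base_succ]
      convert h using 2
      ext φ
      simp only [Set.mem_iUnion, Set.mem_ofPred_eq, exists_prop, List.mem_map, mem_toList,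
        mem_filter, mem_univ, true_and]
      constructor
      · rintro ⟨T, hT, hφ⟩
        exact ⟨earT T, ⟨T, hT, rfl⟩, hφ⟩
      · rintro ⟨_, ⟨T, hT, rfl⟩, hφ⟩
        exact ⟨T, hT, hφ⟩
    · intro E hE
      simp only [List.mem_map, mem_toList, mem_filter, mem_univ, true_and] at hE
      obtain ⟨T, hT, rfl⟩ := hE
      exact isEar_earT hT
    · rw [List.pairwise_map]
      have hnd := (univ.filter (IsT k)).nodup_toList
      apply List.Pairwise.imp_of_mem _ hnd
      intro T T' hT hT' hne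
      simp only [mem_toList, mem_filter, mem_univ, true_and] at hT hT'
      exact earT_inter hT hT' hne

/-! ### The copies of the ball -/

/-- the labelling of the `i`-th copy of the ball -/
def tt (i : Q) (p : Fin 10) : Q :=
  if p = 0 ∨ p = 8 then (i.1, 0) else if p = 1 ∨ p = 5 then (0, i.2) else i

/-- the `i`-th copy of the ball -/
def KK (i : Q) : PreAbstractSimplicialComplex VV := liftM KM (tt i)

lemma card_le_of_inX {s : Finset (Fin 10)} (h : InX s) : s.card ≤ 4 := by
  obtain ⟨a, ha, hs⟩ := h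
  have := card_le_card hs
  rwa [XM_card a ha] at this

/-- labelled faces over the sphere -/
def BB : Set (Finset VV) := Base 4

lemma mem_BB {φ : Finset VV} :
    φ ∈ BB ↔ φ.Nonempty ∧ (∀ v ∈ φ, ∀ w ∈ φ, v.1 = w.1 → v = w) ∧ InX (pos φ) := by
  constructor
  · rintro ⟨h1, h2, h3, _⟩
    exact ⟨h1, h2, h3⟩
  · rintro ⟨h1, h2, h3⟩
    refine ⟨h1, h2, h3, ?_⟩
    refine (card_le_card (nz_subset φ)).trans ?_
    rw [← card_pos_eq (lab_tl h2)]
    exact card_le_of_inX h3

lemma isEar_KK (i : Q) : IsEar 4 BB (KK i) := by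
  refine ⟨isPure_liftM KM_card (by decide), isBall_K _, proper_K _, ?_⟩
  ext φ
  constructor
  · rintro ⟨hφ, hb⟩
    exact (boundary_K φ hφ).2 (mem_BB.1 hb).2.2
  · intro hφ
    have hφ' : φ ∈ (KK i).faces := hφ.1
    exact ⟨hφ', mem_BB.2 ⟨hφ'.1, inj_of_lab hφ'.2.1, (boundary_K φ hφ').1 hφ⟩⟩

lemma inX_15 : InX {1, 5} := by
  have h := small_faces
  rw [Bool.and_eq_true, Bool.and_eq_true] at h
  obtain ⟨⟨_, h⟩, _⟩ := h
  rw [List.any_eq_true] at h
  obtain ⟨b, hb, h1⟩ := h
  refine ⟨b, hb, ?_⟩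
  have := fin10_subset h1
  have e : fin10 34 = {1, 5} := by decide
  rwa [e] at this

lemma inX_08 : InX {0, 8} := by
  have h := small_faces
  rw [Bool.and_eq_true, Bool.and_eq_true] at h
  obtain ⟨_, h⟩ := h
  rw [List.any_eq_true] at h
  obtain ⟨b, hb, h1⟩ := h
  refine ⟨b, hb, ?_⟩
  have := fin10_subset h1
  have e : fin10 257 = {0, 8} := by decide
  rwa [e] at this

lemma tt_agree {i j : Q} (hij : i ≠ j) {s : Finset (Fin 10)} (h : ∀ p ∈ s, tt i p = tt j p) :
    s ⊆ {1, 5} ∨ s ⊆ {0, 8} := by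
  by_cases h1 : i.1 = j.1
  · right
    have h2 : i.2 ≠ j.2 := fun h2 => hij (Prod.ext h1 h2)
    intro p hp
    have h3 := h p hp
    unfold tt at h3
    by_cases c1 : p = 0 ∨ p = 8
    · simpa using c1
    · exfalso
      rw [if_neg c1, if_neg c1] at h3
      by_cases c2 : p = 1 ∨ p = 5
      · rw [if_pos c2, if_pos c2] at h3
        exact h2 (Prod.mk.inj h3).2
      · rw [if_neg c2, if_neg c2] at h3
        exact hij h3
  · left
    intro p hp
    have h3 := h p hp
    unfold tt at h3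
    by_cases c1 : p = 0 ∨ p = 8
    · exfalso
      rw [if_pos c1, if_pos c1] at h3
      exact h1 (Prod.mk.inj h3).1
    · rw [if_neg c1, if_neg c1] at h3
      by_cases c2 : p = 1 ∨ p = 5
      · simpa using c2
      · rw [if_neg c2, if_neg c2] at h3
        exact absurd h3 hij

lemma KK_inter {i j : Q} (hij : i ≠ j) {φ : Finset VV} (h1 : φ ∈ (KK i).faces)
    (h2 : φ ∈ (KK j).faces) : InX (pos φ) := by
  have h : ∀ p ∈ pos φ, tt i p = tt j p := by
    intro p hp
    obtain ⟨q, hq⟩ := mem_pos.1 hp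
    have e1 := h1.2.1 _ hq
    have e2 := h2.2.1 _ hq
    simp only at e1 e2
    rw [← e1, ← e2]
  rcases tt_agree hij h with h3 | h3
  · exact inX_15.mono h3
  · exact inX_08.mono h3

/-- The counterexample. -/
def Δ : PreAbstractSimplicialComplex VV where
  faces := BB ∪ ⋃ i : Q, (KK i).faces
  isRelLowerSet_faces := by
    intro φ hφ
    rcases hφ with hφ | hφ
    · rw [mem_BB] at hφ
      obtain ⟨h1, h2, h3⟩ := hφ
      refine ⟨h1, ?_⟩
      intro ψ hψ hne
      left
      rw [mem_BB]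
      exact ⟨hne, fun v hv w hw => h2 v (hψ hv) w (hψ hw), h3.mono (pos_mono hψ)⟩
    · rw [Set.mem_iUnion] at hφ
      obtain ⟨i, hφ⟩ := hφ
      refine ⟨hφ.1, ?_⟩
      intro ψ hψ hne
      right
      rw [Set.mem_iUnion]
      refine ⟨i, hne, lab_mono hφ.2.1 hψ, ?_⟩
      obtain ⟨a, ha, h⟩ := hφ.2.2
      exact ⟨a, ha, (pos_mono hψ).trans h⟩

lemma mem_Δ {φ : Finset VV} : φ ∈ Δ.faces ↔ φ ∈ BB ∨ ∃ i, φ ∈ (KK i).faces := by
  change φ ∈ BB ∪ ⋃ i : Q, (KK i).faces ↔ _
  rw [Set.mem_union, Set.mem_iUnion]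

lemma card_face {φ : Finset VV} (h : φ ∈ Δ.faces) :
    φ.card ≤ 4 ∧ ∃ ψ ∈ Δ.faces, φ ⊆ ψ ∧ ψ.card = 4 := by
  rw [mem_Δ] at h
  rcases h with h | ⟨i, h⟩
  · rw [mem_BB] at h
    obtain ⟨h1, h2, h3⟩ := h
    have hL := lab_tl h2
    refine ⟨by rw [← card_pos_eq hL]; exact card_le_of_inX h3, ?_⟩
    obtain ⟨a, ha, h4⟩ := h3
    refine ⟨(fin10 a).image (emb (tl φ)), ?_, ?_, ?_⟩
    · rw [mem_Δ, mem_BB]
      left
      refine ⟨(fin10_nonempty (XM_card a ha)).image _, inj_of_lab (lab_image_emb _ _), ?_⟩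
      rw [pos_image_emb]
      exact ⟨a, ha, subset_rfl⟩
    · rw [subset_iff_pos hL (lab_image_emb _ _), pos_image_emb]
      exact h4
    · rw [card_image_of_injective _ (emb_injective _), XM_card a ha]
  · obtain ⟨h1, h2, a, ha, h4⟩ := h
    refine ⟨?_, (fin10 a).image (emb (tt i)), ?_, ?_, ?_⟩
    · rw [← card_pos_eq h2, ← KM_card a ha]
      exact card_le_card h4
    · rw [mem_Δ]
      right
      exact ⟨i, image_mem_liftM KM_card ha⟩
    · rw [subset_iff_pos h2 (lab_image_emb _ _), pos_image_emb]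
      exact h4
    · rw [card_image_of_injective _ (emb_injective _), KM_card a ha]

lemma facets_Δ {φ : Finset VV} : φ ∈ facets Δ ↔ φ ∈ Δ.faces ∧ φ.card = 4 := by
  constructor
  · rintro ⟨h1, h2⟩
    refine ⟨h1, ?_⟩
    obtain ⟨_, ψ, hψ, h3, h4⟩ := card_face h1
    rw [h2 ψ hψ h3, h4]
  · rintro ⟨h1, h2⟩
    refine ⟨h1, ?_⟩
    intro ψ hψ hsub
    apply eq_of_subset_of_card_le hsub
    rw [h2]
    exact (card_face hψ).1

lemma isPure_Δ : IsPure 4 Δ := by
  constructor
  · obtain ⟨a, ha⟩ := List.exists_mem_of_ne_nil XM (by decide)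
    refine ⟨(fin10 a).image (emb (fun _ => 0)), ?_⟩
    rw [mem_Δ, mem_BB]
    left
    refine ⟨(fin10_nonempty (XM_card a ha)).image _, inj_of_lab (lab_image_emb _ _), ?_⟩
    rw [pos_image_emb]
    exact ⟨a, ha, subset_rfl⟩
  · intro s hs
    exact (facets_Δ.1 hs).2

lemma hasCED_Δ : HasConvexEarDecomposition 4 Δ := by
  refine ⟨isPure_Δ, ?_⟩
  have h := CED.addList (((univ : Finset Q).toList).map KK) (ced_base 4) ?_ ?_
  · obtain ⟨m, S, h0, h1, h2, h3, h4, h5, h6⟩ := h
    refine ⟨m, S, h0, h1, h2, h3, h4, h5, ?_⟩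
    rw [← h6]
    ext φ
    rw [mem_Δ]
    simp only [Set.mem_union, Set.mem_iUnion, Set.mem_ofPred_eq, exists_prop, List.mem_map,
      mem_toList, mem_univ, true_and]
    constructor
    · rintro (h | ⟨i, h⟩)
      · exact Or.inl h
      · exact Or.inr ⟨KK i, ⟨i, rfl⟩, h⟩
    · rintro (h | ⟨_, ⟨i, rfl⟩, h⟩)
      · exact Or.inl h
      · exact Or.inr ⟨i, h⟩
  · intro E hE
    simp only [List.mem_map, mem_toList, mem_univ, true_and] at hE
    obtain ⟨i, rfl⟩ := hE
    exact isEar_KK i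
  · rw [List.pairwise_map]
    apply List.Pairwise.imp _ (univ : Finset Q).nodup_toList
    intro i j hij φ hφ
    change φ ∈ BB
    rw [mem_BB]
    exact ⟨hφ.1.1, inj_of_lab hφ.1.2.1, KK_inter hij hφ.1 hφ.2⟩

/-! ### `Δ` is not shellable -/

/-- the 20 vertices at which the copies can get stuck -/
def stuckV : Finset VV := univ.filter (fun v => ((v.1 = 0 ∨ v.1 = 8) ∧ v.2.2 = 0) ∨
  ((v.1 = 1 ∨ v.1 = 5) ∧ v.2.1 = 0))

lemma card_stuckV : stuckV.card = 20 := by decide +kernel

lemma stuck {a : ℕ} (ha : a ∈ KM) : ∃ v ∈ fin10 a, (v = 0 ∨ v = 1 ∨ v = 5 ∨ v = 8) ∧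
    ∀ x ∈ fin10 a, x ≠ v → ¬ InX ((fin10 a).erase x) := by
  have h := KM_stuck
  rw [List.all_eq_true] at h
  have h1 := h a ha
  rw [List.any_eq_true] at h1
  obtain ⟨v, hv, h2⟩ := h1
  rw [Bool.and_eq_true, List.all_eq_true] at h2
  obtain ⟨h2, h3⟩ := h2
  have hv' : v = 0 ∨ v = 1 ∨ v = 5 ∨ v = 8 := by simpa using hv
  have hv10 : v < 10 := by omega
  refine ⟨⟨v, hv10⟩, (mem_fin10 a _).2 h2, ?_, ?_⟩
  · rcases hv' with rfl | rfl | rfl | rfl <;> simp [Fin.ext_iff]
  · intro x hx hxv hc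
    have h4 := h3 x.1 (List.mem_range.2 x.2)
    rw [(mem_fin10 a x).1 hx] at h4
    have hxv' : (x.1 == v) = false := by
      rw [beq_eq_false_iff_ne]
      intro hc
      exact hxv (Fin.ext hc)
    rw [hxv'] at h4
    simp only [Bool.not_true, Bool.or_self, Bool.false_or] at h4
    rw [List.all_eq_true] at h4
    obtain ⟨b, hb, hsub⟩ := hc
    rw [fin10_erase hx] at hsub
    have h5 := h4 b hb
    rw [subB_of_fin10 (xor_lt (KM_lt' a ha)) hsub] at h5
    simp at h5

lemma not_shellable_Δ : ¬ Shellable Δ := by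
  classical
  rintro ⟨L, _, hL, hS⟩
  -- every copy has a first facet
  have hex : ∀ i : Q, ∃ n, ∃ h : n < L.length, L[n] ∈ (KK i).faces := by
    intro i
    obtain ⟨a, ha⟩ := List.exists_mem_of_ne_nil KM (by decide)
    have h1 : (fin10 a).image (emb (tt i)) ∈ (KK i).faces := image_mem_liftM KM_card ha
    have h2 : (fin10 a).image (emb (tt i)) ∈ facets Δ := by
      rw [facets_Δ, mem_Δ]
      refine ⟨Or.inr ⟨i, h1⟩, ?_⟩
      rw [card_image_of_injective _ (emb_injective _), KM_card a ha]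
    obtain ⟨n, hn, he⟩ := List.mem_iff_getElem.1 ((hL _).2 h2)
    exact ⟨n, hn, by rw [he]; exact h1⟩
  let N : Q → ℕ := fun i => Nat.find (hex i)
  have hN : ∀ i, ∃ h : N i < L.length, L[N i] ∈ (KK i).faces := fun i => Nat.find_spec (hex i)
  have hmin : ∀ i k, k < N i → ∀ h : k < L.length, L[k] ∉ (KK i).faces := by
    intro i k hk h hc
    exact Nat.find_min (hex i) hk ⟨h, hc⟩
  -- the stuck vertex
  have hw : ∀ i : Q, ∃ w ∈ stuckV, (∃ h : N i < L.length, w ∈ L[N i]) ∧
      (∀ k, k < N i → ∀ h : k < L.length, w ∉ L[k]) ∧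
      (∀ h : N i < L.length, ¬ InX (pos L[N i])) := by
    intro i
    obtain ⟨hlt, hmem⟩ := hN i
    have hmem' := hmem
    obtain ⟨g1, g2, a, ha, g3⟩ := hmem
    have hc4 : (L[N i]).card = 4 := (facets_Δ.1 ((hL _).1 (List.getElem_mem hlt))).2
    have hpos : pos L[N i] = fin10 a := by
      apply eq_of_subset_of_card_le g3
      rw [KM_card a ha, card_pos_eq g2, hc4]
    obtain ⟨v, hv, hv4, hst⟩ := stuck ha
    have hne : ∃ x ∈ fin10 a, x ≠ v := by
      have : 1 < (fin10 a).card := by rw [KM_card a ha]; norm_num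
      obtain ⟨x, hx, hxv⟩ := exists_mem_ne this v
      exact ⟨x, hx, hxv⟩
    have hnX : ¬ InX (fin10 a) := by
      obtain ⟨x, hx, hxv⟩ := hne
      intro hc
      exact hst x hx hxv (hc.mono (erase_subset _ _))
    have hwm : (v, tt i v) ∈ L[N i] := by
      rw [eq_image_of_lab g2, mem_image]
      exact ⟨v, by rw [hpos]; exact hv, rfl⟩
    refine ⟨(v, tt i v), ?_, ⟨hlt, hwm⟩, ?_, ?_⟩
    · unfold stuckV
      rw [mem_filter]
      refine ⟨mem_univ _, ?_⟩
      rcases hv4 with rfl | rfl | rfl | rfl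
      · left; simp [tt]
      · right; simp [tt]
      · right; simp [tt]
      · left; simp [tt]
    · intro k hk hkL hc
      obtain ⟨R, hR1, hR2, hR3, k', hk', hRk'⟩ := hS (N i) hlt (by omega) {(v, tt i v)}
        (singleton_subset_iff.2 hwm) ⟨k, hk, singleton_subset_iff.2 hc⟩
      have hk'L : k' < L.length := by omega
      rw [hc4] at hR3
      have hRL : Lab (tt i) R := lab_mono g2 hR2.1
      have hRne : R.Nonempty := by rw [← card_pos]; omega
      -- the positions of `R`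
      have hnR : ¬ InX (pos R) := by
        have hsub : pos R ⊆ fin10 a := by rw [← hpos]; exact pos_mono hR2.1
        have hRne' : pos R ≠ fin10 a := by
          intro he
          have := card_pos_eq hRL
          rw [he, KM_card a ha] at this
          omega
        obtain ⟨x, hxa, hxR⟩ := exists_of_ssubset (hsub.ssubset_of_ne hRne')
        have hvR : v ∈ pos R := mem_pos.2 ⟨tt i v, singleton_subset_iff.1 hR1⟩
        have hxv : x ≠ v := fun hc => hxR (hc ▸ hvR)
        have he : pos R = (fin10 a).erase x := by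
          apply eq_of_subset_of_card_le
          · intro y hy
            rw [mem_erase]
            exact ⟨fun hc => hxR (hc ▸ hy), hsub hy⟩
          · rw [card_erase_of_mem hxa, KM_card a ha, card_pos_eq hRL]
            omega
        rw [he]
        exact hst x hxa hxv
      have hLk' : L[k'] ∈ Δ.faces := (facets_Δ.1 ((hL _).1 (List.getElem_mem hk'L))).1
      rw [mem_Δ] at hLk'
      rcases hLk' with hb | ⟨j, hj⟩
      · exact hnR ((mem_BB.1 hb).2.2.mono (pos_mono hRk'))
      · by_cases hij : i = j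
        · subst hij
          exact hmin i k' hk' hk'L hj
        · have hRi : R ∈ (KK i).faces := by
            refine ⟨hRne, hRL, a, ha, ?_⟩
            rw [← hpos]; exact pos_mono hR2.1
          have hRj : R ∈ (KK j).faces := by
            obtain ⟨_, f2, b, hb, f3⟩ := hj
            exact ⟨hRne, lab_mono f2 hRk', b, hb, (pos_mono hRk').trans f3⟩
          exact hnR (KK_inter hij hRi hRj)
    · intro h
      rw [hpos]
      exact hnX
  choose w hw1 hw2 hw3 hw4 using hw
  have hNne : ∀ i j, i ≠ j → N i ≠ N j := by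
    intro i j hij he
    obtain ⟨hi, hi2⟩ := hN i
    obtain ⟨hj, hj2⟩ := hN j
    have : L[N i] = L[N j] := by congr 1
    rw [← this] at hj2
    exact hw4 i hi (KK_inter hij hi2 hj2)
  have hlt : ∀ i j, N i < N j → w i ≠ w j := by
    intro i j hij he
    obtain ⟨hi, hi2⟩ := hw2 i
    have := hw3 j (N i) hij hi
    rw [← he] at this
    exact this hi2
  have hinj : Function.Injective w := by
    intro i j he
    by_contra hij
    rcases lt_or_gt_of_ne (hNne i j hij) with h | h
    · exact hlt i j h he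
    · exact hlt j i h he.symm
  have hcard : (univ.image w).card ≤ stuckV.card := by
    apply card_le_card
    intro v hv
    obtain ⟨i, _, rfl⟩ := mem_image.1 hv
    exact hw1 i
  rw [card_image_of_injective _ hinj, card_stuckV] at hcard
  have : (univ : Finset Q).card = 25 := by decide
  omega

end Pool.Agent.Helper57.Ced
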