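import Pool.Agent.Helper57.Ced.Poly

open Finset

namespace Pool.Agent.Helper57.Ced

/-! Explicit data: two simplicial 4-polytopes, a nonshellable ball in the boundary of the first
one, the boundary sphere of the second one, and certificates. -/

/-- vertices of the first polytope (9 vertices, 24 facets) -/
def ptsK : Fin 9 → Fin 4 → ℤ :=
  ![![-2, 2, 0, 1], ![-1, 0, -2, 2], ![1, -1, 1, 2], ![1, -2, 2, -1], ![-2, 1, 0, 2], ![0, -2, 2, -1], ![-2, 0, 2, 2], ![1, 0, 2, 1], ![2, -2, -2, 1]]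

/-- facets of the first polytope with their inequalities -/
def certK : List (FacetData 9 4) :=
  [⟨{0, 1, 2, 4}, ![5, 7, -1, 7], 11⟩,
   ⟨{0, 1, 2, 7}, ![4, 5, -1, 4], 6⟩,
   ⟨{0, 1, 4, 5}, ![-7, -3, -2, -3], 5⟩,
   ⟨{0, 1, 5, 8}, ![-1, 0, -2, -3], -1⟩,
   ⟨{0, 1, 7, 8}, ![6, 7, -2, 4], 6⟩,
   ⟨{0, 2, 4, 7}, ![2, 3, 0, 3], 5⟩,
   ⟨{0, 3, 5, 7}, ![0, 1, 1, -1], 1⟩,
   ⟨{0, 3, 5, 8}, ![0, 1, -2, -4], -2⟩,
   ⟨{0, 3, 7, 8}, ![6, 7, -2, -7], -5⟩,
   ⟨{0, 4, 5, 6}, ![-5, -2, -1, -2], 4⟩,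
   ⟨{0, 4, 6, 7}, ![2, 6, 3, 6], 14⟩,
   ⟨{0, 5, 6, 7}, ![-2, 7, 10, -6], 12⟩,
   ⟨{1, 2, 4, 6}, ![0, 0, 0, 1], 2⟩,
   ⟨{1, 2, 6, 8}, ![-4, -11, -1, 10], 26⟩,
   ⟨{1, 2, 7, 8}, ![10, 11, -3, 8], 12⟩,
   ⟨{1, 4, 5, 6}, ![-12, -6, -3, -4], 10⟩,
   ⟨{1, 5, 6, 8}, ![-4, -7, -1, 2], 10⟩,
   ⟨{2, 3, 5, 6}, ![0, -3, 3, 2], 10⟩,
   ⟨{2, 3, 5, 8}, ![0, -5, 1, 2], 10⟩,
   ⟨{2, 3, 6, 7}, ![1, -3, 6, 3], 16⟩,
   ⟨{2, 3, 7, 8}, ![6, -1, 2, 1], 11⟩,
   ⟨{2, 4, 6, 7}, ![1, 2, 1, 3], 6⟩,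
   ⟨{2, 5, 6, 8}, ![-4, -13, 1, 6], 22⟩,
   ⟨{3, 5, 6, 7}, ![0, 0, 1, 0], 2⟩]

/-- vertices of the second polytope (10 vertices, 20 facets, stacked) -/
def ptsX : Fin 10 → Fin 4 → ℤ :=
  ![![-2, 2, 3, 2], ![3, -2, -2, -2], ![2, -1, -3, -3], ![-1, 2, 3, -3], ![3, -3, 0, 1], ![3, -2, -1, 0], ![3, -2, 0, -3], ![2, -3, 2, 3], ![-2, 2, 1, 2], ![2, 3, -3, 3]]

/-- facets of the second polytope with their inequalities -/
def certX : List (FacetData 10 4) :=
  [⟨{0, 3, 7, 8}, ![-25, -21, 0, -5], -2⟩,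
   ⟨{0, 3, 7, 9}, ![155, 105, 126, 31], 340⟩,
   ⟨{0, 3, 8, 9}, ![-5, 21, 0, -1], 50⟩,
   ⟨{0, 7, 8, 9}, ![-1, 0, 0, 4], 10⟩,
   ⟨{1, 2, 4, 6}, ![-5, -8, -1, -2], 7⟩,
   ⟨{1, 2, 4, 9}, ![-1, -6, -9, 4], 19⟩,
   ⟨{1, 2, 6, 9}, ![6, 3, -1, -2], 18⟩,
   ⟨{1, 4, 5, 6}, ![1, 0, 0, 0], 3⟩,
   ⟨{1, 4, 5, 9}, ![2, -1, -2, 1], 10⟩,
   ⟨{1, 5, 6, 9}, ![5, 1, 0, 0], 13⟩,
   ⟨{2, 3, 6, 7}, ![-3, -3, 0, -1], 0⟩,
   ⟨{2, 3, 6, 9}, ![3, 3, 0, -2], 9⟩,
   ⟨{2, 3, 7, 8}, ![-57, -49, -4, -13], -14⟩,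
   ⟨{2, 3, 8, 9}, ![-14, 12, -13, -8], 23⟩,
   ⟨{2, 4, 6, 7}, ![-14, -20, -2, -5], 13⟩,
   ⟨{2, 4, 7, 9}, ![-16, -15, -18, 10], 7⟩,
   ⟨{2, 7, 8, 9}, ![-67, -60, -72, 40], 22⟩,
   ⟨{3, 6, 7, 9}, ![114, 60, 72, 5], 207⟩,
   ⟨{4, 5, 6, 9}, ![17, 4, 3, 1], 40⟩,
   ⟨{4, 6, 7, 9}, ![58, 20, 24, 5], 119⟩]

/-- bit masks of the facets of the nonshellable ball `K` (18 facets, 9 vertices) -/
def KM : List ℕ :=
  [23, 135, 51, 291, 387, 149, 169, 297, 113, 209, 225, 326, 390, 354, 108, 300, 356, 232]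

/-- bit masks of the facets of the sphere `X` (20 facets, 10 vertices), in the order of `certX` -/
def XM : List ℕ :=
  [393, 649, 777, 897, 86, 534, 582, 114, 562, 610, 204, 588, 396, 780, 212, 660, 900, 712, 624, 720]

/-- bit masks of the 14 boundary triangles of `K` -/
def RM : List ℕ :=
  [137, 265, 385, 22, 70, 50, 98, 76, 268, 148, 388, 200, 112, 208]

/-- for every nonempty face `G` of the sphere (given by its mask): the vertices of the final
simplex, and the inverse stellar moves reducing the closed star of `G` to that simplex -/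
def starCerts : List (ℕ × List ℕ × List (Bool × List ℕ × ℕ)) :=
  [(1, [3, 7, 8, 9], [(false, [3, 7, 8, 9], 0)]),
   (2, [2, 4, 5, 9], [(false, [4, 6, 9], 1), (false, [2, 5], 6)]),
   (4, [3, 4, 6, 9], [(false, [4, 6, 9], 1), (false, [3, 7, 9], 8), (false, [6, 7, 9], 2), (false, [3, 4], 7)]),
   (8, [0, 6, 7, 9], [(false, [0, 2], 8), (false, [2, 7, 9], 3), (false, [0, 6], 2)]),
   (16, [1, 2, 5, 9], [(false, [2, 6, 9], 7), (false, [1, 6, 9], 4), (false, [2, 5], 6)]),
   (32, [1, 4, 6, 9], [(false, [1, 4, 6, 9], 5)]),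
   (64, [2, 3, 4, 5], [(false, [2, 5], 1), (false, [3, 4], 7), (false, [2, 4, 9], 6), (false, [3, 5], 9)]),
   (128, [3, 6, 8, 9], [(false, [2, 6, 9], 4), (false, [3, 8, 9], 0), (false, [2, 3, 9], 7), (false, [6, 8], 2)]),
   (256, [0, 2, 7, 9], [(false, [3, 7, 9], 8), (false, [0, 2], 3)]),
   (512, [1, 2, 4, 5], [(false, [3, 7, 8], 0), (false, [2, 3, 7], 8), (false, [2, 6, 7], 3), (false, [2, 4, 6], 7), (false, [1, 4, 6], 9), (false, [2, 5], 6)]),
   (9, [3, 7, 8, 9], [(false, [7, 8, 9], 0)]),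
   (129, [0, 3, 8, 9], [(false, [3, 8, 9], 7)]),
   (257, [0, 3, 7, 9], [(false, [3, 7, 9], 8)]),
   (513, [3, 7, 8, 9], [(false, [3, 7, 8], 0)]),
   (6, [1, 4, 6, 9], [(false, [4, 6, 9], 2)]),
   (18, [2, 4, 5, 6], [(false, [6, 9], 1), (false, [2, 5], 9)]),
   (34, [4, 5, 6, 9], [(false, [4, 6, 9], 1)]),
   (66, [1, 2, 5, 9], [(false, [4, 9], 6), (false, [2, 5], 4)]),
   (514, [2, 4, 6, 9], [(false, [2, 5], 1), (false, [4, 6], 5)]),
   (12, [6, 7, 8, 9], [(false, [6, 8], 2), (false, [7, 9], 3)]),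
   (20, [2, 6, 7, 9], [(false, [1, 7], 4), (false, [6, 9], 1)]),
   (68, [1, 2, 3, 7], [(false, [1, 7], 4), (false, [7, 9], 6), (false, [1, 3], 9)]),
   (132, [2, 6, 8, 9], [(false, [6, 9], 4), (false, [3, 9], 7), (false, [6, 8], 3)]),
   (260, [2, 3, 7, 9], [(false, [3, 7, 9], 8)]),
   (516, [1, 3, 4, 9], [(false, [4, 8], 7), (false, [1, 3], 6), (false, [1, 8], 2), (false, [3, 4], 8)]),
   (72, [2, 6, 7, 9], [(false, [2, 7, 9], 3)]),
   (136, [0, 2, 3, 6], [(false, [0, 2], 8), (false, [2, 9], 7), (false, [0, 6], 9)]),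
   (264, [0, 2, 7, 9], [(false, [7, 9], 3), (false, [0, 2], 8)]),
   (520, [2, 3, 6, 7], [(false, [0, 2], 8), (false, [0, 6], 9), (false, [2, 7], 0)]),
   (48, [1, 4, 6, 9], [(false, [1, 6, 9], 5)]),
   (80, [2, 5, 6, 7], [(false, [5, 7], 9), (false, [1, 7], 4), (false, [2, 5], 1)]),
   (144, [2, 4, 6, 9], [(false, [2, 6, 9], 7)]),
   (528, [1, 2, 4, 7], [(false, [1, 6], 5), (false, [2, 6], 9), (false, [1, 7], 6)]),
   (96, [1, 4, 6, 9], [(false, [1, 4, 9], 5)]),
   (544, [1, 4, 5, 6], [(false, [1, 4, 6], 9)]),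
   (192, [2, 3, 4, 9], [(false, [2, 9], 6), (false, [3, 4], 7)]),
   (576, [1, 2, 3, 4], [(false, [3, 4], 7), (false, [1, 4], 5), (false, [2, 4], 9), (false, [1, 3], 6)]),
   (384, [0, 2, 8, 9], [(false, [3, 9], 7), (false, [0, 2], 3)]),
   (640, [3, 4, 8, 9], [(false, [3, 4], 6), (false, [4, 8], 2), (false, [0, 4], 7), (false, [3, 8], 0)]),
   (768, [0, 2, 3, 9], [(false, [3, 7], 8), (false, [0, 2], 7)]),
   (137, [0, 3, 8, 9], [(false, [8, 9], 7)]),
   (265, [0, 7, 8, 9], [(false, [7, 9], 3)]),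
   (521, [0, 3, 7, 8], [(false, [7, 8], 9)]),
   (385, [0, 3, 8, 9], [(false, [3, 9], 7)]),
   (641, [0, 3, 8, 9], [(false, [3, 8], 7)]),
   (769, [0, 3, 7, 9], [(false, [3, 7], 8)]),
   (22, [1, 2, 6, 9], [(false, [6, 9], 4)]),
   (70, [1, 2, 4, 9], [(false, [4, 9], 6)]),
   (518, [1, 2, 4, 6], [(false, [4, 6], 9)]),
   (50, [1, 4, 6, 9], [(false, [6, 9], 5)]),
   (82, [2, 4, 5, 6], [(false, [2, 5], 1)]),
   (530, [1, 2, 5, 9], [(false, [2, 5], 4)]),
   (98, [1, 4, 5, 9], [(false, [4, 9], 6)]),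
   (546, [1, 4, 5, 6], [(false, [4, 6], 9)]),
   (578, [2, 5, 6, 9], [(false, [2, 5], 1)]),
   (76, [2, 3, 7, 9], [(false, [7, 9], 6)]),
   (140, [2, 3, 6, 8], [(false, [6, 8], 7)]),
   (268, [3, 7, 8, 9], [(false, [7, 9], 2)]),
   (524, [2, 6, 8, 9], [(false, [6, 8], 3)]),
   (84, [1, 4, 6, 7], [(false, [1, 7], 2)]),
   (148, [2, 6, 7, 9], [(false, [6, 9], 4)]),
   (532, [1, 2, 7, 9], [(false, [1, 7], 4)]),
   (196, [2, 3, 4, 6], [(false, [3, 4], 7)]),
   (580, [1, 2, 3, 6], [(false, [1, 3], 9)]),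
   (388, [3, 7, 8, 9], [(false, [3, 9], 2)]),
   (644, [2, 4, 7, 8], [(false, [4, 8], 9)]),
   (772, [2, 3, 7, 9], [(false, [3, 7], 8)]),
   (200, [2, 3, 7, 9], [(false, [2, 9], 6)]),
   (584, [2, 3, 7, 9], [(false, [2, 7], 6)]),
   (392, [0, 2, 3, 8], [(false, [0, 2], 7)]),
   (648, [0, 3, 6, 9], [(false, [0, 6], 7)]),
   (776, [0, 2, 8, 9], [(false, [0, 2], 3)]),
   (112, [1, 4, 5, 9], [(false, [1, 9], 6)]),
   (560, [1, 4, 5, 6], [(false, [1, 6], 9)]),
   (208, [2, 4, 6, 9], [(false, [2, 9], 7)]),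
   (592, [4, 5, 6, 7], [(false, [5, 7], 9)]),
   (656, [2, 4, 6, 9], [(false, [2, 6], 7)]),
   (608, [1, 4, 5, 9], [(false, [1, 4], 6)]),
   (704, [3, 4, 6, 7], [(false, [3, 4], 9)]),
   (896, [0, 2, 8, 9], [(false, [0, 2], 7)]),
   (393, [0, 3, 7, 8], []),
   (649, [0, 3, 7, 9], []),
   (777, [0, 3, 8, 9], []),
   (897, [0, 7, 8, 9], []),
   (86, [1, 2, 4, 6], []),
   (534, [1, 2, 4, 9], []),
   (582, [1, 2, 6, 9], []),
   (114, [1, 4, 5, 6], []),
   (562, [1, 4, 5, 9], []),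
   (610, [1, 5, 6, 9], []),
   (204, [2, 3, 6, 7], []),
   (588, [2, 3, 6, 9], []),
   (396, [2, 3, 7, 8], []),
   (780, [2, 3, 8, 9], []),
   (212, [2, 4, 6, 7], []),
   (660, [2, 4, 7, 9], []),
   (900, [2, 7, 8, 9], []),
   (712, [3, 6, 7, 9], []),
   (624, [4, 5, 6, 9], []),
   (720, [4, 6, 7, 9], [])]

/-- stellar moves reducing the ball `K` to the simplex `[3, 5, 6, 8]` -/
def movesK : List (Bool × List ℕ × ℕ) :=
  [(true, [0, 2], 9),
   (false, [1, 4, 7], 9),
   (true, [2, 5], 9),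
   (false, [3, 6, 8], 9),
   (true, [5, 7], 9),
   (false, [0, 3, 6], 9),
   (true, [3, 7], 9),
   (true, [0, 6, 7], 10),
   (false, [4, 9], 10),
   (true, [0, 4, 6], 10),
   (false, [5, 9], 10),
   (true, [0, 6], 10),
   (false, [3, 5, 9], 10),
   (false, [0, 6], 9),
   (true, [2, 4], 9),
   (true, [1, 4, 7], 10),
   (false, [0, 9], 10),
   (true, [0, 1, 7], 10),
   (false, [8, 9], 10),
   (true, [1, 7], 10),
   (false, [2, 8, 9], 10),
   (false, [1, 7], 9),
   (true, [2, 7], 9),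
   (true, [1, 7, 8], 10),
   (false, [0, 9], 10),
   (true, [0, 1, 8], 10),
   (false, [5, 9], 10),
   (true, [1, 5, 8], 10),
   (false, [6, 9], 10),
   (true, [1, 8], 10),
   (false, [2, 6, 9], 10),
   (false, [1, 8], 9),
   (true, [2, 3], 9),
   (true, [3, 6, 8], 10),
   (false, [5, 9], 10),
   (true, [5, 6, 8], 10),
   (false, [1, 9], 10),
   (true, [6, 8], 10),
   (false, [1, 2, 9], 10),
   (false, [6, 8], 9),
   (true, [1, 6, 8], 9),
   (false, [2, 5], 9),
   (false, [1, 6, 8], 2),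
   (true, [6, 7], 2),
   (true, [0, 4, 7], 9),
   (false, [1, 2], 9),
   (true, [0, 1, 4], 9),
   (false, [2, 5], 9),
   (true, [0, 4], 9),
   (false, [2, 5, 6], 9),
   (false, [0, 4], 2),
   (true, [1, 6], 2),
   (true, [5, 6, 8], 9),
   (false, [2, 3], 9),
   (true, [3, 5, 8], 9),
   (false, [0, 2], 9),
   (true, [5, 8], 9),
   (false, [0, 1, 2], 9),
   (false, [5, 8], 2),
   (true, [4, 7], 2),
   (true, [0, 1, 7], 9),
   (false, [2, 8], 9),
   (true, [0, 1, 8], 9),
   (false, [2, 5], 9),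
   (true, [0, 1], 9),
   (false, [2, 4, 5], 9),
   (false, [0, 1], 2),
   (true, [0, 1, 8], 2),
   (false, [5, 7], 2),
   (false, [0, 1, 8], 7),
   (true, [4, 6], 2),
   (true, [0, 5, 6], 7),
   (false, [2, 3], 7),
   (true, [0, 3, 5], 7),
   (false, [2, 8], 7),
   (true, [0, 5, 8], 7),
   (false, [1, 2], 7),
   (true, [0, 5], 7),
   (false, [1, 2, 4], 7),
   (false, [0, 5], 2),
   (true, [0, 1, 5], 2),
   (false, [4, 8], 2),
   (false, [0, 1, 5], 4),
   (true, [0, 5, 8], 2),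
   (false, [1, 3], 2),
   (false, [0, 5, 8], 1),
   (true, [0, 6], 1),
   (true, [3, 5, 6], 2),
   (false, [1, 8], 2),
   (true, [3, 5], 2),
   (false, [0, 1, 8], 2),
   (false, [3, 5], 1),
   (true, [3, 5, 8], 1),
   (false, [0, 6], 1),
   (false, [3, 5, 8], 0)]

/-! ### Checks of the polytopes -/

/-- Boolean form of the certificate conditions -/
def checkCert {n d : ℕ} (pts : Fin n → Fin d → ℤ) (F : List (FacetData n d)) : Bool :=
  !F.isEmpty &&
  F.all (fun f => decide (∀ i, 0 ≤ f.slackZ pts i ∧ (f.slackZ pts i = 0 ↔ i ∈ f.vs))) &&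
  F.all (fun f => decide (f.vs.card = d)) &&
  F.all (fun f => decide (∀ v ∈ f.vs,
    F.any (fun g => decide (v ∉ g.vs ∧ f.vs.erase v ⊆ g.vs)) = true)) &&
  F.all (fun f => decide (f.vs ≠ univ)) &&
  decide (∀ i : Fin n, F.any (fun f => decide (i ∈ f.vs)) = true)

lemma goodCert_of_check {n d : ℕ} {pts : Fin n → Fin d → ℤ} {F : List (FacetData n d)}
    (h : checkCert pts F = true) : GoodCert pts F := by
  unfold checkCert at h
  simp only [Bool.and_eq_true, List.all_eq_true, decide_eq_true_eq, List.any_eq_true] at h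
  obtain ⟨⟨⟨⟨⟨h1, h2⟩, h3⟩, h4⟩, h5⟩, h6⟩ := h
  refine ⟨?_, fun f hf i => (h2 f hf i).1, fun f hf i => (h2 f hf i).2, h3, ?_, h5, ?_⟩
  · intro hc
    rw [hc] at h1
    simp at h1
  · intro f hf v hv
    obtain ⟨g, hg, hg2⟩ := h4 f hf v hv
    exact ⟨g, hg, hg2⟩
  · intro i
    obtain ⟨f, hf, hi⟩ := h6 i
    exact ⟨f, hf, hi⟩

set_option maxRecDepth 100000 in
lemma goodK : GoodCert ptsK certK := goodCert_of_check (by decide +kernel)

set_option maxRecDepth 100000 in
lemma goodX : GoodCert ptsX certX := goodCert_of_check (by decide +kernel)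

/-! ### Position masks -/

/-- the positions of the bits of `m` below 10 -/
def fin10 (m : ℕ) : Finset (Fin 10) := univ.filter (fun i => m.testBit i.1 = true)

lemma mem_fin10 (m : ℕ) (i : Fin 10) : i ∈ fin10 m ↔ m.testBit i.1 = true := by
  simp [fin10]

/-- inclusion of masks -/
def subB (a b : ℕ) : Bool := a &&& b == a

lemma fin10_subset {a b : ℕ} (h : subB a b = true) : fin10 a ⊆ fin10 b := by
  unfold subB at h
  rw [beq_iff_eq] at h
  intro i hi
  rw [mem_fin10] at hi ⊢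
  rw [← h, Nat.testBit_and, Bool.and_eq_true] at hi
  exact hi.2

/-- the masks of the positions, as natural numbers below `2 ^ 10` -/
lemma subB_of_fin10 {a b : ℕ} (ha : a < 2 ^ 10) (h : fin10 a ⊆ fin10 b) : subB a b = true := by
  unfold subB
  rw [beq_iff_eq]
  apply Nat.eq_of_testBit_eq
  intro i
  rw [Nat.testBit_and]
  by_cases hi : a.testBit i = true
  · have hi10 : i < 10 := by
      by_contra hc
      have : a.testBit i = false := Nat.testBit_lt_two_pow (lt_of_lt_of_le ha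
        (Nat.pow_le_pow_right (by norm_num) (not_lt.1 hc)))
      rw [this] at hi
      exact absurd hi (by simp)
    have := h ((mem_fin10 a ⟨i, hi10⟩).2 hi)
    rw [mem_fin10] at this
    simp only at this
    rw [this, hi]; rfl
  · rw [Bool.not_eq_true] at hi
    rw [hi, Bool.false_and]

lemma fin10_erase {a : ℕ} {x : Fin 10} (hx : x ∈ fin10 a) :
    (fin10 a).erase x = fin10 (a ^^^ 2 ^ x.1) := by
  ext i
  rw [mem_fin10] at hx
  rw [mem_erase, mem_fin10, mem_fin10, Nat.testBit_xor, Nat.testBit_two_pow]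
  by_cases hi : i = x
  · subst hi
    simp [hx]
  · have : ¬ x.1 = i.1 := fun h => hi (Fin.ext h.symm)
    simp [hi, this]

lemma fin10_inter (a b : ℕ) : fin10 a ∩ fin10 b = fin10 (a &&& b) := by
  ext i
  rw [mem_inter, mem_fin10, mem_fin10, mem_fin10, Nat.testBit_and, Bool.and_eq_true]

/-- the image in `ℕ` of the positions of a mask below `2 ^ 10` -/
lemma image_fin10 {a : ℕ} (ha : a < 2 ^ 10) : (fin10 a).image Fin.val = bitsF a := by
  ext v
  rw [mem_bitsF, mem_image]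
  constructor
  · rintro ⟨i, hi, rfl⟩
    exact (mem_fin10 a i).1 hi
  · intro hv
    have hv10 : v < 10 := by
      by_contra hc
      have : a.testBit v = false := Nat.testBit_lt_two_pow (lt_of_lt_of_le ha
        (Nat.pow_le_pow_right (by norm_num) (not_lt.1 hc)))
      rw [this] at hv
      exact absurd hv (by simp)
    exact ⟨⟨v, hv10⟩, (mem_fin10 a _).2 hv, rfl⟩

/-- the mask of a set of positions -/
def maskF (s : Finset (Fin 10)) : ℕ :=
  maskOf (((List.finRange 10).filter (fun i => decide (i ∈ s))).map Fin.val)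

lemma bitsF_maskF (s : Finset (Fin 10)) : bitsF (maskF s) = s.image Fin.val := by
  unfold maskF
  rw [bitsF_maskOf]
  ext v
  simp

lemma maskF_lt (s : Finset (Fin 10)) : maskF s < 2 ^ 10 := by
  apply Nat.lt_pow_two_of_testBit
  intro i hi
  by_contra hc
  rw [Bool.not_eq_false] at hc
  rw [← mem_bitsF, bitsF_maskF, mem_image] at hc
  obtain ⟨x, _, hx⟩ := hc
  have := x.2
  omega

lemma fin10_maskF (s : Finset (Fin 10)) : fin10 (maskF s) = s := by
  have h1 := image_fin10 (maskF_lt s)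
  rw [bitsF_maskF] at h1
  exact Finset.image_injective Fin.val_injective h1

/-! ### Ball certificates (stellar moves) -/

/-- the check for one certificate -/
def okRun (L : List ℕ) (fin : List ℕ) (mvs : List (Bool × List ℕ × ℕ)) : Bool :=
  decide (runM L mvs = some [maskOf fin]) && decide (fin.Nodup) && decide (fin.length = 4)

set_option maxRecDepth 100000 in
lemma okRun_K : okRun KM [3, 5, 6, 8] movesK = true := by decide +kernel

set_option maxRecDepth 100000 in
lemma okRun_star : starCerts.all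
    (fun e => okRun (XM.filter (fun a => subB e.1 a)) e.2.1 e.2.2) = true := by
  decide +kernel

set_option maxRecDepth 100000 in
/-- all masks of subsets of the positions of `a`, for masks below `2 ^ 10` -/
lemma starCerts_complete : (List.range 1024).all (fun g => g == 0 || !(XM.any (fun a => subB g a)) ||
    starCerts.any (fun e => e.1 == g)) = true := by
  decide +kernel

/-! ### Combinatorial checks -/

set_option maxRecDepth 100000 in
lemma XM_lt : XM.all (fun a => decide (a < 2 ^ 10)) = true := by decide +kernel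

set_option maxRecDepth 100000 in
lemma KM_lt : KM.all (fun a => decide (a < 2 ^ 10)) = true := by decide +kernel

set_option maxRecDepth 100000 in
lemma RM_lt : RM.all (fun a => decide (a < 2 ^ 10)) = true := by decide +kernel

set_option maxRecDepth 100000 in
lemma XM_card : ∀ a ∈ XM, (fin10 a).card = 4 := by decide +kernel

set_option maxRecDepth 100000 in
lemma KM_card : ∀ a ∈ KM, (fin10 a).card = 4 := by decide +kernel

set_option maxRecDepth 100000 in
lemma RM_card : ∀ a ∈ RM, (fin10 a).card = 3 := by decide +kernel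

set_option maxRecDepth 100000 in
/-- every ridge of the sphere lies in a second facet -/
lemma XM_ridge : XM.all (fun a => (List.range 10).all (fun x => !a.testBit x ||
    XM.any (fun b => subB (a ^^^ 2 ^ x) b && !b.testBit x))) = true := by
  decide +kernel

set_option maxRecDepth 100000 in
/-- the ball is stuck: every facet has a vertex `v ∈ {0, 1, 5, 8}` such that no triangle of the
facet through `v` lies in the sphere -/
lemma KM_stuck : KM.all (fun a => [0, 1, 5, 8].any (fun v => a.testBit v &&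
    (List.range 10).all (fun x => !a.testBit x || x == v ||
      XM.all (fun b => !subB (a ^^^ 2 ^ x) b)))) = true := by
  decide +kernel

set_option maxRecDepth 100000 in
/-- boundary triangles lie in exactly one facet of the ball, and in the sphere -/
lemma RM_bd : RM.all (fun r => KM.any (fun a => subB r a &&
    KM.all (fun b => !subB r b || b == a)) && XM.any (fun b => subB r b)) = true := by
  decide +kernel

set_option maxRecDepth 100000 in
/-- the intersection of a facet of the ball and a facet of the sphere is contained in a boundary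
triangle -/
lemma KX_inter : KM.all (fun a => XM.all (fun b => (a &&& b == 0) ||
    RM.any (fun r => subB (a &&& b) r))) = true := by
  decide +kernel

set_option maxRecDepth 100000 in
/-- triangles of the ball lie in a second facet or in the sphere -/
lemma KM_ridge : KM.all (fun a => (List.range 10).all (fun x => !a.testBit x ||
    KM.any (fun b => !(b == a) && subB (a ^^^ 2 ^ x) b) ||
    XM.any (fun b => subB (a ^^^ 2 ^ x) b))) = true := by
  decide +kernel

set_option maxRecDepth 100000 in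
/-- the vertices of the ball, and the edges `15` and `08`, are faces of the sphere -/
lemma small_faces : ((List.range 10).all (fun x => XM.any (fun b => b.testBit x)) &&
    XM.any (fun b => subB 34 b) && XM.any (fun b => subB 257 b)) = true := by
  decide +kernel

set_option maxRecDepth 100000 in
/-- no facet of the ball contains the position `9` -/
lemma KM_nine : KM.all (fun a => !a.testBit 9) = true := by
  decide +kernel

set_option maxRecDepth 100000 in
/-- the facets of `certX` are those of `XM` -/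
lemma certX_vs : certX.map FacetData.vs = XM.map fin10 := by
  decide +kernel

/-- relabelling of the positions of the ball -/
def f9 (i : Fin 10) : Fin 9 := if h : i.1 < 9 then ⟨i.1, h⟩ else 0

set_option maxRecDepth 100000 in
/-- the facets of the ball are facets of the first polytope -/
lemma certK_vs : KM.all (fun a => certK.any (fun f => decide ((fin10 a).image f9 = f.vs))) =
    true := by
  decide +kernel

set_option maxRecDepth 100000 in
/-- the facet `{0, 3, 7, 8}` of the first polytope is not a face of the ball -/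
lemma certK_proper : (certK.any (fun f => decide (f.vs = {0, 3, 7, 8})) &&
    KM.all (fun a => !subB 393 a)) = true := by
  decide +kernel

end Pool.Agent.Helper57.Ced
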