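import Mathlib

/-!
# Convex ear decompositions and shellability: definitions

Finite abstract simplicial complexes are `PreAbstractSimplicialComplex V` with `V` finite
(their faces are the nonempty faces; the empty face is implicit).
-/

open Finset

namespace Pool.Agent.Helper57.Ced

variable {V : Type*} [DecidableEq V]

/-- The facets (inclusion-maximal faces) of a complex. -/
def facets (K : PreAbstractSimplicialComplex V) : Set (Finset V) :=
  {s | s ∈ K.faces ∧ ∀ t ∈ K.faces, s ⊆ t → s = t}

/-- `K` is pure of dimension `d - 1`: it has a face, and every facet has `d` vertices. -/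
def IsPure (d : ℕ) (K : PreAbstractSimplicialComplex V) : Prop :=
  K.faces.Nonempty ∧ ∀ s ∈ facets K, s.card = d

/-- `K` is shellable: its facets can be listed as `F_0, F_1, …` (each once) such that for every
`j ≥ 1` the intersection of the simplex `F_j` with the complex generated by `F_0, …, F_{j-1}` is
pure of dimension `dim F_j - 1`, that is: every face of the intersection (the empty one
included) is contained in a face of the intersection with one vertex less than `F_j`. -/
def Shellable (K : PreAbstractSimplicialComplex V) : Prop :=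
  ∃ L : List (Finset V), L.Nodup ∧ (∀ s, s ∈ L ↔ s ∈ facets K) ∧
    ∀ (j : ℕ) (hj : j < L.length), 0 < j →
      ∀ t ⊆ L[j], (∃ (i : ℕ) (hi : i < j), t ⊆ L[i]) →
        ∃ R : Finset V, t ⊆ R ∧ R ⊂ L[j] ∧ R.card + 1 = (L[j]).card ∧
          ∃ (k : ℕ) (hk : k < j), R ⊆ L[k]

/-- The geometric realization of a finite complex: the points of `ℝ^V` with nonnegative
coordinates which are supported on some face and have coordinate sum `1`. -/
def realization (K : PreAbstractSimplicialComplex V) : Set (V → ℝ) :=
  {x | (∀ v, 0 ≤ x v) ∧ ∃ s ∈ K.faces, (∀ v, v ∉ s → x v = 0) ∧ ∑ v ∈ s, x v = 1}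

/-- `K` is a simplicial `n`-ball: its geometric realization is homeomorphic to the closed unit
ball of Euclidean `n`-space. -/
def IsBall (n : ℕ) (K : PreAbstractSimplicialComplex V) : Prop :=
  Nonempty (realization K ≃ₜ Metric.closedBall (0 : EuclideanSpace ℝ (Fin n)) 1)

/-- The (nonempty) faces of the boundary complex of a pure `(d-1)`-dimensional ball `K`: the faces
contained in a face with `d - 1` vertices which lies in exactly one facet. -/
def boundary (d : ℕ) (K : PreAbstractSimplicialComplex V) : Set (Finset V) :=
  {s | s ∈ K.faces ∧ ∃ R ∈ K.faces, s ⊆ R ∧ R.card + 1 = d ∧ ∃! F, F ∈ facets K ∧ R ⊆ F}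

/-- `s` is the vertex set of a proper face of the polytope `conv (range p)` (the empty face
allowed): a supporting hyperplane meets the points `p i` exactly in those with `i ∈ s`. -/
def IsProperFace {d : ℕ} {ι : Type*} [Fintype ι] (p : ι → EuclideanSpace ℝ (Fin d))
    (s : Finset ι) : Prop :=
  s ≠ Finset.univ ∧ ∃ (l : EuclideanSpace ℝ (Fin d) →ₗ[ℝ] ℝ) (c : ℝ),
    (∀ i ∈ s, l (p i) = c) ∧ ∀ i, i ∉ s → l (p i) < c

/-- The points `p i` are the vertices of a simplicial `d`-polytope in `ℝ^d`: they span `ℝ^d`
affinely, each of them is a vertex of the convex hull, and every proper face is a simplex. -/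
structure IsSimplicialPolytope {d : ℕ} {ι : Type*} [Fintype ι]
    (p : ι → EuclideanSpace ℝ (Fin d)) : Prop where
  span : affineSpan ℝ (Set.range p) = ⊤
  vertex : ∀ i, IsProperFace p {i}
  simplex : ∀ s, IsProperFace p s → AffineIndependent ℝ (fun i : s => p i)

/-- The (nonempty) faces of the boundary complex of the polytope with vertices `p i`. -/
def boundaryFaces {d : ℕ} {ι : Type*} [Fintype ι] (p : ι → EuclideanSpace ℝ (Fin d)) :
    Set (Finset ι) :=
  {s | s.Nonempty ∧ IsProperFace p s}

/-- `K` is isomorphic to the boundary complex of a simplicial `d`-polytope. -/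
def IsPolytopeBoundary (d : ℕ) (K : PreAbstractSimplicialComplex V) : Prop :=
  ∃ (n : ℕ) (p : Fin n → EuclideanSpace ℝ (Fin d)) (f : V → Fin n), IsSimplicialPolytope p ∧
    Set.InjOn f {v | {v} ∈ K.faces} ∧ (fun s => s.image f) '' K.faces = boundaryFaces p

/-- `K` is isomorphic to a proper subcomplex of the boundary complex of a simplicial
`d`-polytope. -/
def IsProperInPolytopeBoundary (d : ℕ) (K : PreAbstractSimplicialComplex V) : Prop :=
  ∃ (n : ℕ) (p : Fin n → EuclideanSpace ℝ (Fin d)) (f : V → Fin n), IsSimplicialPolytope p ∧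
    Set.InjOn f {v | {v} ∈ K.faces} ∧ (fun s => s.image f) '' K.faces ⊂ boundaryFaces p

/-- `S 0, …, S (m - 1)` is a convex ear decomposition of the pure `(d-1)`-dimensional complex
`K`. -/
structure IsConvexEarDecomposition (d : ℕ) (K : PreAbstractSimplicialComplex V) (m : ℕ)
    (S : ℕ → PreAbstractSimplicialComplex V) : Prop where
  pos : 0 < m
  pure : ∀ j < m, IsPure d (S j)
  first : IsPolytopeBoundary d (S 0)
  ball : ∀ j, 0 < j → j < m → IsBall (d - 1) (S j)
  proper : ∀ j, 0 < j → j < m → IsProperInPolytopeBoundary d (S j)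
  inter : ∀ j, 0 < j → j < m → (S j).faces ∩ (⋃ i ∈ Set.Iio j, (S i).faces) = boundary d (S j)
  union : K.faces = ⋃ i ∈ Set.Iio m, (S i).faces

/-- The pure `(d-1)`-dimensional complex `K` admits a convex ear decomposition. -/
def HasConvexEarDecomposition (d : ℕ) (K : PreAbstractSimplicialComplex V) : Prop :=
  IsPure d K ∧ ∃ (m : ℕ) (S : ℕ → PreAbstractSimplicialComplex V),
    IsConvexEarDecomposition d K m S

end Pool.Agent.Helper57.Ced
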