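import Pool.Agent.Helper57.Ced.Data

open Finset

namespace Pool.Agent.Helper57.Ced

/-- labels -/
abbrev Q := Fin 5 × Fin 5

/-- vertices: position and label -/
abbrev VV := Fin 10 × Q

/-- the set of positions of a set of vertices -/
def pos (φ : Finset VV) : Finset (Fin 10) := φ.image Prod.fst

lemma mem_pos {φ : Finset VV} {p : Fin 10} : p ∈ pos φ ↔ ∃ q, (p, q) ∈ φ := by
  simp [pos]

lemma pos_mono {φ ψ : Finset VV} (h : φ ⊆ ψ) : pos φ ⊆ pos ψ := image_subset_image h

/-- the embedding of positions given by a labelling -/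
def emb (t : Fin 10 → Q) (p : Fin 10) : VV := (p, t p)

lemma emb_injective (t : Fin 10 → Q) : Function.Injective (emb t) := by
  intro a b h
  exact (Prod.mk.inj h).1

lemma pos_image_emb (t : Fin 10 → Q) (s : Finset (Fin 10)) : pos (s.image (emb t)) = s := by
  unfold pos
  rw [image_image]
  have : (Prod.fst ∘ emb t) = id := by funext p; rfl
  rw [this, image_id]

/-- `φ` has all its labels given by `t` -/
def Lab (t : Fin 10 → Q) (φ : Finset VV) : Prop := ∀ v ∈ φ, v.2 = t v.1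

lemma eq_image_of_lab {t : Fin 10 → Q} {φ : Finset VV} (h : Lab t φ) :
    φ = (pos φ).image (emb t) := by
  ext ⟨p, q⟩
  simp only [mem_image, mem_pos, emb, Prod.mk.injEq]
  constructor
  · intro hv
    exact ⟨p, ⟨q, hv⟩, rfl, (h _ hv).symm⟩
  · rintro ⟨p', ⟨q', hv⟩, rfl, rfl⟩
    have := h _ hv
    simp only at this
    rwa [← this]

lemma lab_image_emb (t : Fin 10 → Q) (s : Finset (Fin 10)) : Lab t (s.image (emb t)) := by
  intro v hv
  obtain ⟨p, _, rfl⟩ := mem_image.1 hv
  rfl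

lemma card_pos_eq {t : Fin 10 → Q} {φ : Finset VV} (h : Lab t φ) : (pos φ).card = φ.card := by
  conv_rhs => rw [eq_image_of_lab h]
  rw [card_image_of_injective _ (emb_injective t)]

lemma lab_mono {t : Fin 10 → Q} {φ ψ : Finset VV} (h : Lab t ψ) (hs : φ ⊆ ψ) : Lab t φ :=
  fun v hv => h v (hs hv)

lemma subset_iff_pos {t : Fin 10 → Q} {φ ψ : Finset VV} (h1 : Lab t φ) (h2 : Lab t ψ) :
    φ ⊆ ψ ↔ pos φ ⊆ pos ψ := by
  constructor
  · exact pos_mono
  · intro h
    rw [eq_image_of_lab h1, eq_image_of_lab h2]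
    exact image_subset_image h

/-- the copy, with labels `t`, of the complex on the positions generated by the masks `M` -/
def liftM (M : List ℕ) (t : Fin 10 → Q) : PreAbstractSimplicialComplex VV where
  faces := {φ | φ.Nonempty ∧ Lab t φ ∧ ∃ a ∈ M, pos φ ⊆ fin10 a}
  isRelLowerSet_faces := by
    rintro φ ⟨h1, h2, a, ha, h3⟩
    refine ⟨h1, ?_⟩
    intro ψ hψ hne
    exact ⟨hne, lab_mono h2 hψ, a, ha, (pos_mono hψ).trans h3⟩

lemma mem_liftM {M : List ℕ} {t : Fin 10 → Q} {φ : Finset VV} :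
    φ ∈ (liftM M t).faces ↔ φ.Nonempty ∧ Lab t φ ∧ ∃ a ∈ M, pos φ ⊆ fin10 a := Iff.rfl

section
variable {M : List ℕ} {t : Fin 10 → Q}

lemma fin10_nonempty {a : ℕ} (h : (fin10 a).card = 4) : (fin10 a).Nonempty := by
  rw [← card_pos, h]; norm_num

lemma image_mem_liftM (hM : ∀ a ∈ M, (fin10 a).card = 4) {a : ℕ} (ha : a ∈ M) :
    (fin10 a).image (emb t) ∈ (liftM M t).faces :=
  ⟨(fin10_nonempty (hM a ha)).image _, lab_image_emb t _, a, ha, by rw [pos_image_emb]⟩

lemma facets_liftM (hM : ∀ a ∈ M, (fin10 a).card = 4) (s : Finset VV) :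
    s ∈ facets (liftM M t) ↔ ∃ a ∈ M, s = (fin10 a).image (emb t) := by
  constructor
  · rintro ⟨⟨h1, h2, a, ha, h3⟩, h4⟩
    refine ⟨a, ha, h4 _ (image_mem_liftM hM ha) ?_⟩
    rw [eq_image_of_lab h2]
    exact image_subset_image h3
  · rintro ⟨a, ha, rfl⟩
    refine ⟨image_mem_liftM hM ha, ?_⟩
    rintro ψ ⟨h1, h2, b, hb, h3⟩ hsub
    have h4 := pos_mono hsub
    rw [pos_image_emb] at h4
    have h5 : fin10 a = fin10 b :=
      eq_of_subset_of_card_le (h4.trans h3) (by rw [hM a ha, hM b hb])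
    have h6 : pos ψ = fin10 a := by
      apply subset_antisymm
      · rw [h5]; exact h3
      · exact h4
    rw [eq_image_of_lab h2, h6]

lemma isPure_liftM (hM : ∀ a ∈ M, (fin10 a).card = 4) (hne : M ≠ []) :
    IsPure 4 (liftM M t) := by
  constructor
  · obtain ⟨a, ha⟩ := List.exists_mem_of_ne_nil M hne
    exact ⟨_, image_mem_liftM hM ha⟩
  · intro s hs
    rw [facets_liftM hM] at hs
    obtain ⟨a, ha, rfl⟩ := hs
    rw [card_image_of_injective _ (emb_injective t), hM a ha]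

lemma isBall_liftM (hM : ∀ a ∈ M, (fin10 a).card = 4) (hlt : ∀ a ∈ M, a < 2 ^ 10)
    {fin : List ℕ} {mvs : List (Bool × List ℕ × ℕ)} (h : okRun M fin mvs = true) :
    IsBall 3 (liftM M t) := by
  unfold okRun at h
  rw [Bool.and_eq_true, Bool.and_eq_true, decide_eq_true_eq, decide_eq_true_eq,
    decide_eq_true_eq] at h
  obtain ⟨⟨h1, h2⟩, h3⟩ := h
  have hpi : ∀ s : Finset VV, s.image (fun v => v.1.val) = (pos s).image Fin.val := by
    intro s
    unfold pos
    rw [image_image]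
    rfl
  refine isBall_of_run (liftM M t) (fun v => v.1.val) ?_ ?_ ?_ h1 ?_
  · intro v hv w hw hvw
    have e1 : v.2 = t v.1 := hv.2.1 v (mem_singleton_self v)
    have e2 : w.2 = t w.1 := hw.2.1 w (mem_singleton_self w)
    have e3 : v.1 = w.1 := Fin.ext hvw
    exact Prod.ext e3 (by rw [e1, e2, e3])
  · rintro s ⟨_, _, a, ha, hs⟩
    refine ⟨a, ha, ?_⟩
    rw [hpi, ← image_fin10 (hlt a ha)]
    exact image_subset_image hs
  · intro a ha
    refine ⟨_, image_mem_liftM hM ha, ?_⟩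
    rw [hpi, pos_image_emb, image_fin10 (hlt a ha)]
  · rw [bitsF_maskOf, List.toFinset_card_of_nodup h2, h3]

/-- position-level boundary -/
def BdM (M : List ℕ) (s : Finset (Fin 10)) : Prop :=
  ∃ R : Finset (Fin 10), s ⊆ R ∧ R.card = 3 ∧ ∃ a ∈ M, R ⊆ fin10 a ∧
    ∀ b ∈ M, R ⊆ fin10 b → fin10 b = fin10 a

lemma boundary_liftM (hM : ∀ a ∈ M, (fin10 a).card = 4) (φ : Finset VV) :
    φ ∈ boundary 4 (liftM M t) ↔ φ ∈ (liftM M t).faces ∧ BdM M (pos φ) := by
  constructor
  · rintro ⟨hφ, R, hR, hφR, hRc, F, ⟨hF, hRF⟩, huniq⟩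
    refine ⟨hφ, pos R, pos_mono hφR, ?_, ?_⟩
    · rw [card_pos_eq hR.2.1]; omega
    · rw [facets_liftM hM] at hF
      obtain ⟨a, ha, rfl⟩ := hF
      refine ⟨a, ha, ?_, ?_⟩
      · have := pos_mono hRF
        rwa [pos_image_emb] at this
      · intro b hb hRb
        have h1 := huniq ((fin10 b).image (emb t)) ⟨(facets_liftM hM _).2 ⟨b, hb, rfl⟩, by
          rw [eq_image_of_lab hR.2.1]
          exact image_subset_image hRb⟩
        exact image_injective (emb_injective t) h1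
  · rintro ⟨hφ, R, hR1, hR2, a, ha, hRa, huniq⟩
    refine ⟨hφ, R.image (emb t), ⟨?_, lab_image_emb t R, a, ha, by rwa [pos_image_emb]⟩, ?_, ?_,
      (fin10 a).image (emb t), ⟨(facets_liftM hM _).2 ⟨a, ha, rfl⟩, image_subset_image hRa⟩, ?_⟩
    · apply Nonempty.image
      rw [← card_pos, hR2]; norm_num
    · rw [eq_image_of_lab hφ.2.1]
      exact image_subset_image hR1
    · rw [card_image_of_injective _ (emb_injective t), hR2]
    · rintro G ⟨hG, hRG⟩
      rw [facets_liftM hM] at hG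
      obtain ⟨b, hb, rfl⟩ := hG
      have h1 := pos_mono hRG
      rw [pos_image_emb, pos_image_emb] at h1
      rw [huniq b hb h1]

end

/-! ### The sphere `X` and the ball `K` -/

/-- `s` is a face of the sphere (position level, the empty set allowed) -/
def InX (s : Finset (Fin 10)) : Prop := ∃ a ∈ XM, s ⊆ fin10 a

/-- `s` is a face of the ball (position level, the empty set allowed) -/
def InK (s : Finset (Fin 10)) : Prop := ∃ a ∈ KM, s ⊆ fin10 a

lemma InX.mono {s s' : Finset (Fin 10)} (h : InX s) (hs : s' ⊆ s) : InX s' := by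
  obtain ⟨a, ha, h1⟩ := h
  exact ⟨a, ha, hs.trans h1⟩

lemma XM_lt' : ∀ a ∈ XM, a < 2 ^ 10 := by
  have h := XM_lt
  rw [List.all_eq_true] at h
  intro a ha
  exact of_decide_eq_true (h a ha)

lemma KM_lt' : ∀ a ∈ KM, a < 2 ^ 10 := by
  have h := KM_lt
  rw [List.all_eq_true] at h
  intro a ha
  exact of_decide_eq_true (h a ha)

lemma RM_lt' : ∀ a ∈ RM, a < 2 ^ 10 := by
  have h := RM_lt
  rw [List.all_eq_true] at h
  intro a ha
  exact of_decide_eq_true (h a ha)

lemma land_lt {a b : ℕ} (ha : a < 2 ^ 10) : a &&& b < 2 ^ 10 :=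
  lt_of_le_of_lt Nat.and_le_left ha

lemma xor_lt {a : ℕ} {x : Fin 10} (ha : a < 2 ^ 10) : a ^^^ 2 ^ x.1 < 2 ^ 10 := by
  apply Nat.xor_lt_two_pow ha
  exact Nat.pow_lt_pow_right (by norm_num) x.2

/-- every ridge of the sphere is in a second facet -/
lemma X_ridge {a : ℕ} (ha : a ∈ XM) {x : Fin 10} (hx : x ∈ fin10 a) :
    ∃ b ∈ XM, (fin10 a).erase x ⊆ fin10 b ∧ x ∉ fin10 b := by
  have h := XM_ridge
  rw [List.all_eq_true] at h
  have h1 := h a ha
  rw [List.all_eq_true] at h1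
  have h2 := h1 x.1 (List.mem_range.2 x.2)
  rw [mem_fin10] at hx
  rw [hx] at h2
  simp only [Bool.not_true, Bool.false_or, List.any_eq_true, Bool.and_eq_true] at h2
  obtain ⟨b, hb, h3, h4⟩ := h2
  refine ⟨b, hb, ?_, ?_⟩
  · rw [fin10_erase ((mem_fin10 a x).2 hx)]
    exact fin10_subset h3
  · rw [mem_fin10]
    intro hc
    rw [hc] at h4
    simp at h4

/-- the facets of the star of `G` -/
def starM (G : Finset (Fin 10)) : List ℕ := XM.filter (fun a => subB (maskF G) a)

lemma mem_starM {G : Finset (Fin 10)} {a : ℕ} : a ∈ starM G ↔ a ∈ XM ∧ G ⊆ fin10 a := by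
  unfold starM
  rw [List.mem_filter]
  constructor
  · rintro ⟨h1, h2⟩
    have := fin10_subset h2
    rw [fin10_maskF] at this
    exact ⟨h1, this⟩
  · rintro ⟨h1, h2⟩
    refine ⟨h1, ?_⟩
    apply subB_of_fin10 (maskF_lt G)
    rw [fin10_maskF]
    exact h2

lemma starM_card (G : Finset (Fin 10)) : ∀ a ∈ starM G, (fin10 a).card = 4 :=
  fun a ha => XM_card a (mem_starM.1 ha).1

lemma starM_ne {G : Finset (Fin 10)} (hG : InX G) : starM G ≠ [] := by
  obtain ⟨a, ha, h⟩ := hG
  intro hc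
  have : a ∈ starM G := mem_starM.2 ⟨ha, h⟩
  rw [hc] at this
  exact absurd this (by simp)

lemma starM_faces {G : Finset (Fin 10)} (s : Finset (Fin 10)) :
    (∃ a ∈ starM G, s ⊆ fin10 a) ↔ InX (s ∪ G) := by
  constructor
  · rintro ⟨a, ha, hs⟩
    rw [mem_starM] at ha
    exact ⟨a, ha.1, union_subset hs ha.2⟩
  · rintro ⟨a, ha, hs⟩
    exact ⟨a, mem_starM.2 ⟨ha, subset_union_right.trans hs⟩, subset_union_left.trans hs⟩

lemma isBall_star {G : Finset (Fin 10)} (hG : InX G) (hne : G.Nonempty) (t : Fin 10 → Q) :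
    IsBall 3 (liftM (starM G) t) := by
  obtain ⟨a, ha, hGa⟩ := hG
  have h := starCerts_complete
  rw [List.all_eq_true] at h
  have h1 := h (maskF G) (List.mem_range.2 (maskF_lt G))
  have hz : (maskF G == 0) = false := by
    rw [beq_eq_false_iff_ne]
    intro hc
    have h2 := fin10_maskF G
    rw [hc] at h2
    obtain ⟨x, hx⟩ := hne
    rw [← h2, mem_fin10] at hx
    simp at hx
  have ha' : XM.any (fun a => subB (maskF G) a) = true := by
    rw [List.any_eq_true]
    exact ⟨a, ha, subB_of_fin10 (maskF_lt G) (by rw [fin10_maskF]; exact hGa)⟩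
  rw [hz, ha'] at h1
  simp only [Bool.false_or, Bool.not_true, List.any_eq_true, beq_iff_eq] at h1
  obtain ⟨e, he, heG⟩ := h1
  have h3 := okRun_star
  rw [List.all_eq_true] at h3
  have h4 := h3 e he
  rw [heG] at h4
  exact isBall_liftM (starM_card G) (fun a ha => XM_lt' a (mem_starM.1 ha).1) h4

lemma isBall_K (t : Fin 10 → Q) : IsBall 3 (liftM KM t) :=
  isBall_liftM KM_card KM_lt' okRun_K

/-! ### Polytopality -/

lemma certX_mem {s : Finset (Fin 10)} : (∃ f ∈ certX, s ⊆ f.vs) ↔ InX s := by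
  have h := certX_vs
  constructor
  · rintro ⟨f, hf, hs⟩
    have : f.vs ∈ certX.map FacetData.vs := List.mem_map.2 ⟨f, hf, rfl⟩
    rw [h] at this
    obtain ⟨a, ha, he⟩ := List.mem_map.1 this
    exact ⟨a, ha, by rw [he]; exact hs⟩
  · rintro ⟨a, ha, hs⟩
    have : fin10 a ∈ XM.map fin10 := List.mem_map.2 ⟨a, ha, rfl⟩
    rw [← h] at this
    obtain ⟨f, hf, he⟩ := List.mem_map.1 this
    exact ⟨f, hf, by rw [he]; exact hs⟩

lemma injOn_fst {M : List ℕ} {t : Fin 10 → Q} :
    Set.InjOn (Prod.fst : VV → Fin 10) {v | {v} ∈ (liftM M t).faces} := by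
  intro v hv w hw hvw
  have e1 : v.2 = t v.1 := hv.2.1 v (mem_singleton_self v)
  have e2 : w.2 = t w.1 := hw.2.1 w (mem_singleton_self w)
  exact Prod.ext hvw (by rw [e1, e2, hvw])

lemma polytope_X (t : Fin 10 → Q) : IsPolytopeBoundary 4 (liftM XM t) := by
  refine ⟨10, realPts ptsX, Prod.fst, isSimplicialPolytope_of_cert goodX, injOn_fst, ?_⟩
  ext s
  simp only [Set.mem_image, boundaryFaces, Set.mem_ofPred_eq, isProperFace_iff goodX, certX_mem]
  constructor
  · rintro ⟨φ, ⟨h1, h2, h3⟩, rfl⟩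
    exact ⟨h1.image _, h3⟩
  · rintro ⟨h1, h2⟩
    refine ⟨s.image (emb t), ⟨h1.image _, lab_image_emb t s, ?_⟩, pos_image_emb t s⟩
    rw [pos_image_emb]
    exact h2

lemma proper_star {G : Finset (Fin 10)} (hG : InX G) (hne : G.Nonempty) (t : Fin 10 → Q) :
    IsProperInPolytopeBoundary 4 (liftM (starM G) t) := by
  refine ⟨10, realPts ptsX, Prod.fst, isSimplicialPolytope_of_cert goodX, injOn_fst, ?_⟩
  rw [Set.ssubset_iff_of_subset]
  · obtain ⟨a, ha, hGa⟩ := hG
    obtain ⟨x, hx⟩ := hne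
    obtain ⟨b, hb, _, hxb⟩ := X_ridge ha (hGa hx)
    refine ⟨fin10 b, ⟨fin10_nonempty (XM_card b hb), ?_⟩, ?_⟩
    · rw [isProperFace_iff goodX, certX_mem]
      exact ⟨b, hb, subset_rfl⟩
    · rintro ⟨φ, ⟨_, _, c, hc, hφ⟩, he⟩
      rw [mem_starM] at hc
      have he' : pos φ = fin10 b := he
      rw [he'] at hφ
      have : fin10 b = fin10 c :=
        eq_of_subset_of_card_le hφ (by rw [XM_card b hb, XM_card c hc.1])
      rw [this] at hxb
      exact hxb (hc.2 hx)
  · rintro _ ⟨φ, ⟨h1, _, c, hc, hφ⟩, rfl⟩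
    refine ⟨h1.image _, ?_⟩
    rw [isProperFace_iff goodX, certX_mem]
    exact ⟨c, (mem_starM.1 hc).1, hφ⟩

lemma K_nine {s : Finset (Fin 10)} (hs : InK s) : (9 : Fin 10) ∉ s := by
  obtain ⟨a, ha, h⟩ := hs
  intro hc
  have h1 := KM_nine
  rw [List.all_eq_true] at h1
  have h2 := h1 a ha
  have h3 := (mem_fin10 a 9).1 (h hc)
  rw [show ((9 : Fin 10)).1 = 9 from rfl] at h3
  rw [h3] at h2
  simp at h2

lemma f9_inj {i j : Fin 10} (hi : i ≠ 9) (hj : j ≠ 9) (h : f9 i = f9 j) : i = j := by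
  revert i j
  decide

lemma proper_K (t : Fin 10 → Q) : IsProperInPolytopeBoundary 4 (liftM KM t) := by
  have hv9 : ∀ v : VV, {v} ∈ (liftM KM t).faces → v.1 ≠ 9 := by
    rintro v ⟨_, _, h⟩ hc
    have h1 : InK (pos {v}) := h
    apply K_nine h1
    rw [mem_pos]
    exact ⟨v.2, by rw [← hc]; simp⟩
  refine ⟨9, realPts ptsK, fun v => f9 v.1, isSimplicialPolytope_of_cert goodK, ?_, ?_⟩
  · intro v hv w hw hvw
    have e3 : v.1 = w.1 := f9_inj (hv9 v hv) (hv9 w hw) hvw
    exact injOn_fst hv hw e3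
  · have him : ∀ φ : Finset VV, φ.image (fun v => f9 v.1) = (pos φ).image f9 := by
      intro φ
      unfold pos
      rw [image_image]
      rfl
    rw [Set.ssubset_iff_of_subset]
    · have h := certK_proper
      rw [Bool.and_eq_true] at h
      obtain ⟨h1, h2⟩ := h
      rw [List.any_eq_true] at h1
      obtain ⟨f, hf, hfe⟩ := h1
      rw [decide_eq_true_eq] at hfe
      refine ⟨{0, 3, 7, 8}, ⟨by simp, ?_⟩, ?_⟩
      · rw [isProperFace_iff goodK]
        exact ⟨f, hf, by rw [hfe]⟩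
      · rintro ⟨φ, hφ, he⟩
        simp only at he
        rw [him] at he
        obtain ⟨_, _, a, ha, hφa⟩ := hφ
        have h9 := K_nine (s := pos φ) ⟨a, ha, hφa⟩
        have hsub : fin10 393 ⊆ pos φ := by
          intro i hi
          have hi2 : i = 0 ∨ i = 3 ∨ i = 7 ∨ i = 8 := by
            revert i; decide
          have hi3 : f9 i ∈ ({0, 3, 7, 8} : Finset (Fin 9)) := by
            rcases hi2 with rfl | rfl | rfl | rfl <;> decide
          rw [← he] at hi3
          obtain ⟨j, hj, hji⟩ := mem_image.1 hi3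
          have hj9 : j ≠ 9 := fun hc => h9 (hc ▸ hj)
          have hi9 : i ≠ 9 := by
            rcases hi2 with rfl | rfl | rfl | rfl <;> decide
          rw [← f9_inj hj9 hi9 hji]
          exact hj
        have h3 := subB_of_fin10 (a := 393) (b := a) (by norm_num) (hsub.trans hφa)
        rw [List.all_eq_true] at h2
        have h4 := h2 a ha
        rw [h3] at h4
        simp at h4
    · rintro _ ⟨φ, ⟨h1, _, a, ha, hφ⟩, rfl⟩
      refine ⟨h1.image _, ?_⟩
      rw [isProperFace_iff goodK]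
      have h := certK_vs
      rw [List.all_eq_true] at h
      have h2 := h a ha
      rw [List.any_eq_true] at h2
      obtain ⟨f, hf, hfe⟩ := h2
      rw [decide_eq_true_eq] at hfe
      refine ⟨f, hf, ?_⟩
      simp only
      rw [him, ← hfe]
      exact image_subset_image hφ

/-! ### Boundaries -/

lemma boundary_star {G : Finset (Fin 10)} {t : Fin 10 → Q} (φ : Finset VV)
    (hφ : φ ∈ (liftM (starM G) t).faces) :
    φ ∈ boundary 4 (liftM (starM G) t) ↔ ¬ G ⊆ pos φ := by
  rw [boundary_liftM (starM_card G)]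
  constructor
  · rintro ⟨_, R, hR1, hR2, a, ha, hRa, huniq⟩ hG
    -- G ⊆ R, and R is contained in a second facet
    have hGR : G ⊆ R := hG.trans hR1
    rw [mem_starM] at ha
    have hne : R ≠ fin10 a := by
      intro hc
      have := XM_card a ha.1
      rw [← hc, hR2] at this
      omega
    obtain ⟨x, hxa, hxR⟩ := exists_of_ssubset (hRa.ssubset_of_ne hne)
    obtain ⟨b, hb, hab, hxb⟩ := X_ridge ha.1 hxa
    have hRb : R ⊆ fin10 b := by
      intro y hy
      apply hab
      rw [mem_erase]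
      exact ⟨fun hc => hxR (hc ▸ hy), hRa hy⟩
    have := huniq b (mem_starM.2 ⟨hb, hGR.trans hRb⟩) hRb
    rw [this] at hxb
    exact hxb hxa
  · intro hG
    refine ⟨hφ, ?_⟩
    obtain ⟨x, hxG, hxφ⟩ := not_subset.1 hG
    obtain ⟨_, _, a, ha, hφa⟩ := hφ
    have ha' := mem_starM.1 ha
    refine ⟨(fin10 a).erase x, ?_, ?_, a, ha, erase_subset _ _, ?_⟩
    · intro y hy
      rw [mem_erase]
      exact ⟨fun hc => hxφ (hc ▸ hy), hφa hy⟩
    · rw [card_erase_of_mem (ha'.2 hxG), XM_card a ha'.1]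
    · intro b hb hsub
      have hb' := mem_starM.1 hb
      symm
      apply eq_of_subset_of_card_le
      · intro y hy
        by_cases hyx : y = x
        · rw [hyx]; exact hb'.2 hxG
        · exact hsub (mem_erase.2 ⟨hyx, hy⟩)
      · rw [XM_card a ha'.1, XM_card b hb'.1]

lemma R_spec {r : ℕ} (hr : r ∈ RM) : (∃ a ∈ KM, fin10 r ⊆ fin10 a ∧
    ∀ b ∈ KM, fin10 r ⊆ fin10 b → b = a) ∧ InX (fin10 r) := by
  have h := RM_bd
  rw [List.all_eq_true] at h
  have h1 := h r hr
  rw [Bool.and_eq_true] at h1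
  obtain ⟨h1, h2⟩ := h1
  rw [List.any_eq_true] at h1 h2
  constructor
  · obtain ⟨a, ha, h3⟩ := h1
    rw [Bool.and_eq_true] at h3
    obtain ⟨h3, h4⟩ := h3
    refine ⟨a, ha, fin10_subset h3, ?_⟩
    intro b hb hrb
    rw [List.all_eq_true] at h4
    have h5 := h4 b hb
    rw [subB_of_fin10 (RM_lt' r hr) hrb] at h5
    simpa using h5
  · obtain ⟨b, hb, h3⟩ := h2
    exact ⟨b, hb, fin10_subset h3⟩

lemma boundary_K {t : Fin 10 → Q} (φ : Finset VV) (hφ : φ ∈ (liftM KM t).faces) :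
    φ ∈ boundary 4 (liftM KM t) ↔ InX (pos φ) := by
  rw [boundary_liftM KM_card]
  constructor
  · rintro ⟨_, R, hR1, hR2, a, ha, hRa, huniq⟩
    have hne : R ≠ fin10 a := by
      intro hc
      have := KM_card a ha
      rw [← hc, hR2] at this
      omega
    obtain ⟨x, hxa, hxR⟩ := exists_of_ssubset (hRa.ssubset_of_ne hne)
    have hRe : R ⊆ (fin10 a).erase x := by
      intro y hy
      rw [mem_erase]
      exact ⟨fun hc => hxR (hc ▸ hy), hRa hy⟩
    have h := KM_ridge
    rw [List.all_eq_true] at h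
    have h1 := h a ha
    rw [List.all_eq_true] at h1
    have h2 := h1 x.1 (List.mem_range.2 x.2)
    rw [(mem_fin10 a x).1 hxa] at h2
    simp only [Bool.not_true, Bool.false_or, Bool.or_eq_true, List.any_eq_true,
      Bool.and_eq_true] at h2
    rw [fin10_erase hxa] at hRe
    rcases h2 with ⟨b, hb, hba, hsub⟩ | ⟨b, hb, hsub⟩
    · exfalso
      have h3 := huniq b hb (hRe.trans (fin10_subset hsub))
      have h4 : b = a := by
        have e1 : (fin10 b).image Fin.val = (fin10 a).image Fin.val := by rw [h3]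
        rw [image_fin10 (KM_lt' b hb), image_fin10 (KM_lt' a ha)] at e1
        exact bitsF_injective e1
      rw [h4] at hba
      simp at hba
    · exact ⟨b, hb, (hR1.trans hRe).trans (fin10_subset hsub)⟩
  · rintro ⟨b, hb, hφb⟩
    refine ⟨hφ, ?_⟩
    obtain ⟨hne, _, a, ha, hφa⟩ := hφ
    have h := KX_inter
    rw [List.all_eq_true] at h
    have h1 := h a ha
    rw [List.all_eq_true] at h1
    have h2 := h1 b hb
    have hsub : pos φ ⊆ fin10 (a &&& b) := by
      rw [← fin10_inter]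
      exact subset_inter hφa hφb
    rw [Bool.or_eq_true] at h2
    rcases h2 with h2 | h2
    · exfalso
      rw [beq_iff_eq] at h2
      rw [h2] at hsub
      obtain ⟨v, hv⟩ := hne
      have := hsub (mem_pos.2 ⟨v.2, hv⟩)
      rw [mem_fin10] at this
      simp at this
    · rw [List.any_eq_true] at h2
      obtain ⟨r, hr, hsr⟩ := h2
      obtain ⟨⟨a', ha', hra', huniq⟩, _⟩ := R_spec hr
      refine ⟨fin10 r, hsub.trans (fin10_subset hsr), RM_card r hr, a', ha', hra', ?_⟩
      intro c hc hrc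
      rw [huniq c hc hrc]

end Pool.Agent.Helper57.Ced
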