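import Pool.Agent.Helper57.Ced.Relabel

open Finset

namespace Pool.Agent.Helper57.Ced

/-- a facet with its inequality: vertex set, normal vector, right-hand side -/
structure FacetData (n d : ℕ) where
  vs : Finset (Fin n)
  N : Fin d → ℤ
  c : ℤ

/-- integer slack of the point `i` in the inequality of `f` -/
def FacetData.slackZ {n d : ℕ} (pts : Fin n → Fin d → ℤ) (f : FacetData n d) (i : Fin n) : ℤ :=
  f.c - ∑ k, f.N k * pts i k

/-- the certificate conditions -/
structure GoodCert {n d : ℕ} (pts : Fin n → Fin d → ℤ) (F : List (FacetData n d)) : Prop where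
  ne : F ≠ []
  nonneg : ∀ f ∈ F, ∀ i, 0 ≤ f.slackZ pts i
  zero : ∀ f ∈ F, ∀ i, f.slackZ pts i = 0 ↔ i ∈ f.vs
  card : ∀ f ∈ F, f.vs.card = d
  adj : ∀ f ∈ F, ∀ v ∈ f.vs, ∃ g ∈ F, v ∉ g.vs ∧ f.vs.erase v ⊆ g.vs
  proper : ∀ f ∈ F, f.vs ≠ univ
  cover : ∀ i : Fin n, ∃ f ∈ F, i ∈ f.vs

/-- the real points -/
noncomputable def realPts {n d : ℕ} (pts : Fin n → Fin d → ℤ) (i : Fin n) :
    EuclideanSpace ℝ (Fin d) := WithLp.toLp 2 (fun k => (pts i k : ℝ))

/-- slack of a pair (normal, right-hand side) at a point -/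
noncomputable def slk {n d : ℕ} (pts : Fin n → Fin d → ℤ) (i : Fin n) :
    ((Fin d → ℝ) × ℝ) →ₗ[ℝ] ℝ :=
  LinearMap.snd ℝ _ _ -
    (∑ k, (pts i k : ℝ) • (LinearMap.proj k ∘ₗ LinearMap.fst ℝ (Fin d → ℝ) ℝ))

lemma slk_apply {n d : ℕ} (pts : Fin n → Fin d → ℤ) (i : Fin n) (z : (Fin d → ℝ) × ℝ) :
    slk pts i z = z.2 - ∑ k, z.1 k * (pts i k : ℝ) := by
  simp only [slk, LinearMap.sub_apply, LinearMap.snd_apply, LinearMap.coe_sum,
    Finset.sum_apply, LinearMap.smul_apply, LinearMap.comp_apply, LinearMap.fst_apply,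
    LinearMap.proj_apply, smul_eq_mul]
  congr 1
  apply sum_congr rfl
  intro k _
  ring

/-- the vector of a facet -/
noncomputable def FacetData.vec {n d : ℕ} (f : FacetData n d) : (Fin d → ℝ) × ℝ :=
  (fun k => (f.N k : ℝ), (f.c : ℝ))

lemma slk_vec {n d : ℕ} (pts : Fin n → Fin d → ℤ) (f : FacetData n d) (i : Fin n) :
    slk pts i f.vec = (f.slackZ pts i : ℝ) := by
  rw [slk_apply]
  unfold FacetData.vec FacetData.slackZ
  push_cast
  rfl

/-- the linear functional of a normal vector -/
noncomputable def lin {d : ℕ} (N : Fin d → ℝ) : EuclideanSpace ℝ (Fin d) →ₗ[ℝ] ℝ where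
  toFun x := ∑ k, N k * x k
  map_add' x y := by
    simp only [PiLp.add_apply, mul_add, sum_add_distrib]
  map_smul' a x := by
    simp only [PiLp.smul_apply, smul_eq_mul, RingHom.id_apply, mul_sum]
    apply sum_congr rfl
    intro k _
    ring

lemma lin_realPts {n d : ℕ} (pts : Fin n → Fin d → ℤ) (z : (Fin d → ℝ) × ℝ) (i : Fin n) :
    lin z.1 (realPts pts i) = z.2 - slk pts i z := by
  rw [slk_apply]
  show ∑ k, z.1 k * (pts i k : ℝ) = _
  ring

/-- every linear functional has a normal vector -/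
lemma exists_normal {d : ℕ} (l : EuclideanSpace ℝ (Fin d) →ₗ[ℝ] ℝ) :
    ∃ N : Fin d → ℝ, ∀ x, l x = lin N x := by
  refine ⟨fun k => l (EuclideanSpace.single k 1), fun x => ?_⟩
  have hx : x = ∑ k, x k • EuclideanSpace.single k (1 : ℝ) := by
    ext j
    simp [Finset.sum_apply, Pi.single_apply]
  conv_lhs => rw [hx]
  rw [map_sum]
  show _ = ∑ k, l (EuclideanSpace.single k 1) * x k
  apply sum_congr rfl
  intro k _
  rw [map_smul, smul_eq_mul, mul_comm]

section
variable {n d : ℕ} {pts : Fin n → Fin d → ℤ} {F : List (FacetData n d)}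

/-- a neighbour of `f` across the ridge opposite to `v` -/
noncomputable def nbr (h : GoodCert pts F) {f : FacetData n d} (hf : f ∈ F) (v : f.vs) :
    FacetData n d := (h.adj f hf v.1 v.2).choose

lemma nbr_mem (h : GoodCert pts F) {f : FacetData n d} (hf : f ∈ F) (v : f.vs) :
    nbr h hf v ∈ F := (h.adj f hf v.1 v.2).choose_spec.1

lemma nbr_not (h : GoodCert pts F) {f : FacetData n d} (hf : f ∈ F) (v : f.vs) :
    v.1 ∉ (nbr h hf v).vs := (h.adj f hf v.1 v.2).choose_spec.2.1

lemma nbr_sub (h : GoodCert pts F) {f : FacetData n d} (hf : f ∈ F) (v : f.vs) :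
    f.vs.erase v.1 ⊆ (nbr h hf v).vs := (h.adj f hf v.1 v.2).choose_spec.2.2

lemma slk_nonneg (h : GoodCert pts F) {f : FacetData n d} (hf : f ∈ F) (i : Fin n) :
    0 ≤ slk pts i f.vec := by
  rw [slk_vec]; exact_mod_cast h.nonneg f hf i

lemma slk_zero (h : GoodCert pts F) {f : FacetData n d} (hf : f ∈ F) {i : Fin n}
    (hi : i ∈ f.vs) : slk pts i f.vec = 0 := by
  rw [slk_vec]; exact_mod_cast (h.zero f hf i).2 hi

lemma slk_pos (h : GoodCert pts F) {f : FacetData n d} (hf : f ∈ F) {i : Fin n}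
    (hi : i ∉ f.vs) : 0 < slk pts i f.vec := by
  rcases lt_or_eq_of_le (slk_nonneg h hf i) with h1 | h1
  · exact h1
  · exfalso
    apply hi
    rw [← h.zero f hf i]
    rw [slk_vec] at h1
    exact_mod_cast h1.symm

lemma slk_nbr_ne (h : GoodCert pts F) {f : FacetData n d} (hf : f ∈ F) (v u : f.vs)
    (huv : u ≠ v) : slk pts u.1 (nbr h hf v).vec = 0 := by
  apply slk_zero h (nbr_mem h hf v)
  apply nbr_sub h hf v
  rw [mem_erase]
  exact ⟨fun hc => huv (Subtype.ext hc), u.2⟩

lemma slk_nbr_self (h : GoodCert pts F) {f : FacetData n d} (hf : f ∈ F) (v : f.vs) :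
    0 < slk pts v.1 (nbr h hf v).vec := slk_pos h (nbr_mem h hf v) (nbr_not h hf v)

/-- the vectors of `f` and its neighbours -/
noncomputable def vecs (h : GoodCert pts F) {f : FacetData n d} (hf : f ∈ F) :
    Option f.vs → (Fin d → ℝ) × ℝ
  | none => f.vec
  | some v => (nbr h hf v).vec

lemma exists_notMem (h : GoodCert pts F) {f : FacetData n d} (hf : f ∈ F) :
    ∃ j, j ∉ f.vs := by
  by_contra hc
  push Not at hc
  exact h.proper f hf (eq_univ_iff_forall.2 hc)

lemma vecs_indep (h : GoodCert pts F) {f : FacetData n d} (hf : f ∈ F) :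
    LinearIndependent ℝ (vecs h hf) := by
  rw [Fintype.linearIndependent_iff]
  intro a ha
  rw [Fintype.sum_option] at ha
  have hsome : ∀ u : f.vs, a (some u) = 0 := by
    intro u
    have h1 := congrArg (slk pts u.1) ha
    rw [map_zero, map_add, map_smul, map_sum] at h1
    have h2 : slk pts u.1 (vecs h hf none) = 0 := slk_zero h hf u.2
    rw [h2, smul_zero, zero_add, sum_eq_single u] at h1
    · rw [map_smul, smul_eq_mul] at h1
      have h3 : 0 < slk pts u.1 (vecs h hf (some u)) := slk_nbr_self h hf u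
      rcases mul_eq_zero.1 h1 with h4 | h4
      · exact h4
      · exact absurd h4 h3.ne'
    · intro v _ hv
      rw [map_smul, smul_eq_mul]
      have h3 : slk pts u.1 (vecs h hf (some v)) = 0 := slk_nbr_ne h hf v u hv.symm
      rw [h3, mul_zero]
    · intro hc; exact absurd (mem_univ u) hc
  have hnone : a none = 0 := by
    have h1 : a none • vecs h hf none = 0 := by
      rw [sum_eq_zero (fun v _ => by rw [hsome v, zero_smul]), add_zero] at ha
      exact ha
    obtain ⟨j, hj⟩ := exists_notMem h hf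
    have h2 := congrArg (slk pts j) h1
    rw [map_smul, map_zero, smul_eq_mul] at h2
    have h3 : 0 < slk pts j (vecs h hf none) := slk_pos h hf hj
    rcases mul_eq_zero.1 h2 with h4 | h4
    · exact h4
    · exact absurd h4 h3.ne'
  intro o
  cases o with
  | none => exact hnone
  | some u => exact hsome u

lemma vecs_span (h : GoodCert pts F) {f : FacetData n d} (hf : f ∈ F)
    (z : (Fin d → ℝ) × ℝ) : ∃ a : Option f.vs → ℝ, z = ∑ o, a o • vecs h hf o := by
  have hcard : Fintype.card (Option f.vs) = Module.finrank ℝ ((Fin d → ℝ) × ℝ) := by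
    rw [Fintype.card_option, Fintype.card_coe, h.card f hf]
    simp
  have hspan := (vecs_indep h hf).span_eq_top_of_card_eq_finrank' hcard
  have hz : z ∈ Submodule.span ℝ (Set.range (vecs h hf)) := by rw [hspan]; trivial
  rw [Submodule.mem_span_range_iff_exists_fun] at hz
  obtain ⟨a, ha⟩ := hz
  exact ⟨a, ha.symm⟩

/-- every proper face is contained in a listed facet -/
lemma exists_facet (h : GoodCert pts F) {s : Finset (Fin n)}
    (hs : IsProperFace (realPts pts) s) : ∃ f ∈ F, s ⊆ f.vs := by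
  obtain ⟨hsu, l, c, hl1, hl2⟩ := hs
  obtain ⟨N, hN⟩ := exists_normal l
  let z : (Fin d → ℝ) × ℝ := (N, c)
  have hz : ∀ i, slk pts i z = c - l (realPts pts i) := by
    intro i
    have := lin_realPts pts z i
    rw [← hN] at this
    show slk pts i z = c - l (realPts pts i)
    rw [this]
    show _ = c - (c - slk pts i z)
    ring
  have hz0 : ∀ i ∈ s, slk pts i z = 0 := fun i hi => by rw [hz, hl1 i hi, sub_self]
  have hzpos : ∀ i, i ∉ s → 0 < slk pts i z := fun i hi => by
    rw [hz]; linarith [hl2 i hi]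
  have hznn : ∀ i, 0 ≤ slk pts i z := by
    intro i
    by_cases hi : i ∈ s
    · exact (hz0 i hi).ge
    · exact (hzpos i hi).le
  by_contra hcon
  push Not at hcon
  let g : ((Fin d → ℝ) × ℝ) →ₗ[ℝ] ℝ := ∑ i, slk pts i
  let hh : ((Fin d → ℝ) × ℝ) →ₗ[ℝ] ℝ := ∑ i ∈ s, slk pts i
  have hg : ∀ y, g y = ∑ i, slk pts i y := fun y => by simp [g, LinearMap.sum_apply]
  have hhh : ∀ y, hh y = ∑ i ∈ s, slk pts i y := fun y => by simp [hh, LinearMap.sum_apply]
  have hgpos : ∀ f ∈ F, 0 < g f.vec := by
    intro f hf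
    rw [hg]
    obtain ⟨j, hj⟩ := exists_notMem h hf
    exact sum_pos' (fun i _ => slk_nonneg h hf i) ⟨j, mem_univ j, slk_pos h hf hj⟩
  have hhpos : ∀ f ∈ F, 0 < hh f.vec := by
    intro f hf
    rw [hhh]
    obtain ⟨j, hjs, hj⟩ := not_subset.1 (hcon f hf)
    exact sum_pos' (fun i _ => slk_nonneg h hf i) ⟨j, hjs, slk_pos h hf hj⟩
  -- facet with minimal ratio
  obtain ⟨f, hf, hmin⟩ : ∃ f ∈ F, ∀ f' ∈ F, hh f.vec / g f.vec ≤ hh f'.vec / g f'.vec := by
    classical
    obtain ⟨f0, hf0⟩ := List.exists_mem_of_ne_nil F h.ne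
    have hfin : {f | f ∈ F}.Finite := List.finite_toSet F
    obtain ⟨f, hf, hm⟩ := Set.exists_min_image {f | f ∈ F} (fun f => hh f.vec / g f.vec) hfin
      ⟨f0, hf0⟩
    exact ⟨f, hf, hm⟩
  set r := hh f.vec / g f.vec with hr
  have hrpos : 0 < r := div_pos (hhpos f hf) (hgpos f hf)
  have hfr : hh f.vec - r * g f.vec = 0 := by
    rw [hr]
    have := (hgpos f hf).ne'
    field_simp
    ring
  have hall : ∀ f' ∈ F, 0 ≤ hh f'.vec - r * g f'.vec := by
    intro f' hf'
    have h1 := hmin f' hf'
    rw [le_div_iff₀ (hgpos f' hf')] at h1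
    linarith
  obtain ⟨a, ha⟩ := vecs_span h hf z
  have hann : ∀ u : f.vs, 0 ≤ a (some u) := by
    intro u
    have h1 := congrArg (slk pts u.1) ha
    rw [Fintype.sum_option, map_add, map_smul, map_sum] at h1
    have h2 : slk pts u.1 (vecs h hf none) = 0 := slk_zero h hf u.2
    rw [h2, smul_zero, zero_add, sum_eq_single u] at h1
    · rw [map_smul, smul_eq_mul] at h1
      have h3 : 0 < slk pts u.1 (vecs h hf (some u)) := slk_nbr_self h hf u
      by_contra hneg
      push Not at hneg
      have : a (some u) * slk pts u.1 (vecs h hf (some u)) < 0 := mul_neg_of_neg_of_pos hneg h3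
      linarith [hznn u.1]
    · intro v _ hv
      rw [map_smul, smul_eq_mul]
      have h3 : slk pts u.1 (vecs h hf (some v)) = 0 := slk_nbr_ne h hf v u hv.symm
      rw [h3, mul_zero]
    · intro hc; exact absurd (mem_univ u) hc
  have hfinal : hh z - r * g z = ∑ u : f.vs, a (some u) *
      (hh (nbr h hf u).vec - r * g (nbr h hf u).vec) := by
    have e : hh z - r * g z = (hh - r • g) z := by
      simp [LinearMap.sub_apply, LinearMap.smul_apply]
    rw [e, ha, Fintype.sum_option, map_add, map_smul, map_sum]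
    have e1 : (hh - r • g) (vecs h hf none) = 0 := by
      simp only [LinearMap.sub_apply, LinearMap.smul_apply, smul_eq_mul]
      exact hfr
    rw [e1, smul_zero, zero_add]
    apply sum_congr rfl
    intro u _
    rw [map_smul, smul_eq_mul]
    rfl
  have hpos2 : 0 ≤ hh z - r * g z := by
    rw [hfinal]
    exact sum_nonneg fun u _ => mul_nonneg (hann u) (hall _ (nbr_mem h hf u))
  have hhz : hh z = 0 := by
    rw [hhh]
    exact sum_eq_zero hz0
  have hgz : 0 < g z := by
    rw [hg]
    obtain ⟨j, hj⟩ : ∃ j, j ∉ s := by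
      by_contra hc
      push Not at hc
      exact hsu (eq_univ_iff_forall.2 hc)
    exact sum_pos' (fun i _ => hznn i) ⟨j, mem_univ j, hzpos j hj⟩
  have : 0 < r * g z := mul_pos hrpos hgz
  linarith

/-- every subset of a listed facet is a proper face -/
lemma isProperFace_of_subset (h : GoodCert pts F) {f : FacetData n d} (hf : f ∈ F)
    {s : Finset (Fin n)} (hs : s ⊆ f.vs) : IsProperFace (realPts pts) s := by
  classical
  obtain ⟨j, hj⟩ := exists_notMem h hf
  refine ⟨fun hu => hj (hs (hu ▸ mem_univ j)), ?_⟩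
  let z : (Fin d → ℝ) × ℝ := f.vec + ∑ v : f.vs, if v.1 ∈ s then 0 else (nbr h hf v).vec
  have hslk : ∀ i, slk pts i z = slk pts i f.vec +
      ∑ v : f.vs, if v.1 ∈ s then 0 else slk pts i (nbr h hf v).vec := by
    intro i
    rw [map_add, map_sum]
    congr 1
    apply sum_congr rfl
    intro v _
    split_ifs
    · rw [map_zero]
    · rfl
  refine ⟨lin z.1, z.2, ?_, ?_⟩
  · intro i hi
    rw [lin_realPts, hslk, slk_zero h hf (hs hi), zero_add, sum_eq_zero, sub_zero]
    intro v _
    split_ifs with hv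
    · rfl
    · exact slk_nbr_ne h hf v ⟨i, hs hi⟩ (fun hc => hv (by rw [← hc]; exact hi))
  · intro i hi
    rw [lin_realPts, hslk]
    have hnn : ∀ v : f.vs, 0 ≤ (if v.1 ∈ s then 0 else slk pts i (nbr h hf v).vec) := by
      intro v
      split_ifs
      · exact le_rfl
      · exact slk_nonneg h (nbr_mem h hf v) i
    by_cases hif : i ∈ f.vs
    · have h1 : 0 < ∑ v : f.vs, if v.1 ∈ s then 0 else slk pts i (nbr h hf v).vec := by
        refine sum_pos' (fun v _ => hnn v) ⟨⟨i, hif⟩, mem_univ _, ?_⟩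
        rw [if_neg hi]
        exact slk_nbr_self h hf ⟨i, hif⟩
      have h2 := slk_nonneg h hf i
      linarith
    · have h1 := slk_pos h hf hif
      have h2 : 0 ≤ ∑ v : f.vs, if v.1 ∈ s then 0 else slk pts i (nbr h hf v).vec :=
        sum_nonneg fun v _ => hnn v
      linarith

lemma isProperFace_iff (h : GoodCert pts F) (s : Finset (Fin n)) :
    IsProperFace (realPts pts) s ↔ ∃ f ∈ F, s ⊆ f.vs :=
  ⟨exists_facet h, fun ⟨_, hf, hs⟩ => isProperFace_of_subset h hf hs⟩

/-- value of the affine function of `z` on an affine dependence -/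
lemma sum_slk {ι : Type*} (S : Finset ι) (q : ι → Fin n) (w : ι → ℝ) (hw : ∑ i ∈ S, w i = 0)
    (hp : ∑ i ∈ S, w i • realPts pts (q i) = 0) (z : (Fin d → ℝ) × ℝ) :
    ∑ i ∈ S, w i * slk pts (q i) z = 0 := by
  have h1 : ∀ i, slk pts (q i) z = z.2 - lin z.1 (realPts pts (q i)) := by
    intro i; rw [lin_realPts]; ring
  have h2 := congrArg (lin z.1) hp
  rw [map_zero, map_sum] at h2
  simp_rw [map_smul, smul_eq_mul] at h2
  simp_rw [h1, mul_sub]
  rw [sum_sub_distrib, h2, ← sum_mul, hw]
  ring

lemma indep_facet (h : GoodCert pts F) {f : FacetData n d} (hf : f ∈ F) {s : Finset (Fin n)}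
    (hs : s ⊆ f.vs) : AffineIndependent ℝ (fun i : s => realPts pts i) := by
  rw [affineIndependent_iff]
  intro S w hw hp i hi
  have h1 := sum_slk S (fun i : s => i.1) w hw hp (nbr h hf ⟨i.1, hs i.2⟩).vec
  rw [sum_eq_single i] at h1
  · have h2 := slk_nbr_self h hf ⟨i.1, hs i.2⟩
    rcases mul_eq_zero.1 h1 with h3 | h3
    · exact h3
    · exact absurd h3 h2.ne'
  · intro j _ hj
    have := slk_nbr_ne h hf ⟨i.1, hs i.2⟩ ⟨j.1, hs j.2⟩
      (fun hc => hj (Subtype.ext (congrArg (fun x : f.vs => x.1) hc)))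
    rw [this, mul_zero]
  · intro hc; exact absurd hi hc

lemma span_top (h : GoodCert pts F) : affineSpan ℝ (Set.range (realPts pts)) = ⊤ := by
  obtain ⟨f, hf⟩ := List.exists_mem_of_ne_nil F h.ne
  obtain ⟨j, hj⟩ := exists_notMem h hf
  let q : Option f.vs → Fin n := fun o => match o with
    | none => j
    | some v => v.1
  have hind : AffineIndependent ℝ (fun o => realPts pts (q o)) := by
    rw [affineIndependent_iff]
    intro S w hw hp
    have hn : ∀ o ∈ S, o = none → w o = 0 := by
      rintro o ho rfl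
      have h1 := sum_slk S q w hw hp f.vec
      rw [sum_eq_single none] at h1
      · have h2 := slk_pos h hf hj
        rcases mul_eq_zero.1 h1 with h3 | h3
        · exact h3
        · exact absurd h3 h2.ne'
      · intro o _ ho'
        cases o with
        | none => exact absurd rfl ho'
        | some v => rw [slk_zero h hf v.2, mul_zero]
      · intro hc; exact absurd ho hc
    intro o ho
    cases o with
    | none => exact hn none ho rfl
    | some u =>
      have h1 := sum_slk S q w hw hp (nbr h hf u).vec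
      rw [sum_eq_single (some u)] at h1
      · have h2 := slk_nbr_self h hf u
        rcases mul_eq_zero.1 h1 with h3 | h3
        · exact h3
        · exact absurd h3 h2.ne'
      · intro o ho' hne
        cases o with
        | none => rw [hn none ho' rfl, zero_mul]
        | some v =>
          have : slk pts (q (some v)) (nbr h hf u).vec = 0 :=
            slk_nbr_ne h hf u v (fun hc => hne (by rw [hc]))
          rw [this, mul_zero]
      · intro hc; exact absurd ho hc
  have hcard : Fintype.card (Option f.vs) = Module.finrank ℝ (EuclideanSpace ℝ (Fin d)) + 1 := by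
    rw [Fintype.card_option, Fintype.card_coe, h.card f hf]
    simp
  have htop := (hind.affineSpan_eq_top_iff_card_eq_finrank_add_one).2 hcard
  rw [eq_top_iff, ← htop]
  apply affineSpan_mono
  rintro _ ⟨o, rfl⟩
  exact ⟨q o, rfl⟩

theorem isSimplicialPolytope_of_cert (h : GoodCert pts F) :
    IsSimplicialPolytope (realPts pts) where
  span := span_top h
  vertex i := by
    obtain ⟨f, hf, hi⟩ := h.cover i
    exact isProperFace_of_subset h hf (singleton_subset_iff.2 hi)
  simplex s hs := by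
    obtain ⟨f, hf, hsf⟩ := exists_facet h hs
    exact indep_facet h hf hsf

end

end Pool.Agent.Helper57.Ced
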