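import Pool.Agent.Helper57.Ced.Simplex

open Finset

namespace Pool.Agent.Helper57.Ced

variable {V : Type*} [DecidableEq V]

omit [DecidableEq V] in
lemma face_subset {K : PreAbstractSimplicialComplex V} {s t : Finset V} (hs : s ∈ K.faces)
    (hts : t ⊆ s) (ht : t.Nonempty) : t ∈ K.faces :=
  (K.isRelLowerSet_faces hs).2 hts ht

lemma vertex_mem {K : PreAbstractSimplicialComplex V} {s : Finset V} (hs : s ∈ K.faces)
    {v : V} (hv : v ∈ s) : {v} ∈ K.faces :=
  face_subset hs (singleton_subset_iff.2 hv) (singleton_nonempty v)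

lemma injOn_face {K : PreAbstractSimplicialComplex V} {W : Type*} {f : V → W}
    (hf : Set.InjOn f {v | {v} ∈ K.faces}) {s : Finset V} (hs : s ∈ K.faces) :
    Set.InjOn f s := by
  intro a ha b hb hab
  exact hf (vertex_mem hs ha) (vertex_mem hs hb) hab

open Classical in
/-- realizations are invariant under relabelling of the vertices -/
lemma realization_homeo [Fintype V] (K : PreAbstractSimplicialComplex V) (f : V → ℕ)
    (hf : Set.InjOn f {v | {v} ∈ K.faces}) (L : Set (Finset ℕ))
    (h1 : ∀ s ∈ K.faces, ∃ A ∈ L, s.image f ⊆ A)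
    (h2 : ∀ A ∈ L, ∃ s ∈ K.faces, s.image f = A) :
    Nonempty (realization K ≃ₜ realN L) := by
  let F : (V → ℝ) → ℕ → ℝ := fun x n => ∑ v, if f v = n then x v else 0
  let G : (ℕ → ℝ) → V → ℝ := fun y v => if {v} ∈ K.faces then y (f v) else 0
  -- value of F at image points
  have hF : ∀ x : V → ℝ, ∀ s ∈ K.faces, (∀ v, v ∉ s → x v = 0) → ∀ v, {v} ∈ K.faces →
      F x (f v) = x v := by
    intro x s hs hsupp v hv
    simp only [F]
    rw [sum_eq_single v]
    · simp
    · intro w _ hw
      split_ifs with h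
      · by_cases hws : w ∈ s
        · exact absurd (hf (vertex_mem hs hws) hv h) hw
        · exact hsupp w hws
      · rfl
    · intro h; exact absurd (mem_univ v) h
  have hF0 : ∀ x : V → ℝ, ∀ s ∈ K.faces, (∀ v, v ∉ s → x v = 0) → ∀ n, n ∉ s.image f →
      F x n = 0 := by
    intro x s hs hsupp n hn
    simp only [F]
    apply sum_eq_zero
    intro w _
    split_ifs with h
    · apply hsupp
      intro hw
      exact hn (mem_image.2 ⟨w, hw, h⟩)
    · rfl
  have hFmem : ∀ x ∈ realization K, F x ∈ realN L := by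
    rintro x ⟨hx0, s, hs, hsupp, hsum⟩
    refine ⟨fun n => ?_, ?_⟩
    · simp only [F]
      apply sum_nonneg
      intro v _
      split_ifs
      · exact hx0 v
      · exact le_rfl
    · obtain ⟨A, hA, hsA⟩ := h1 s hs
      refine ⟨A, hA, fun n hn => hF0 x s hs hsupp n (fun h => hn (hsA h)), ?_⟩
      rw [← sum_subset hsA (fun n _ hn => hF0 x s hs hsupp n hn),
        sum_image (injOn_face hf hs)]
      rw [← hsum]
      apply sum_congr rfl
      intro v hv
      exact hF x s hs hsupp v (vertex_mem hs hv)
  have hGmem : ∀ y ∈ realN L, G y ∈ realization K := by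
    rintro y ⟨hy0, A, hA, hsupp, hsum⟩
    obtain ⟨s, hs, rfl⟩ := h2 A hA
    refine ⟨fun v => ?_, s, hs, ?_, ?_⟩
    · simp only [G]
      split_ifs
      · exact hy0 _
      · exact le_rfl
    · intro v hv
      simp only [G]
      split_ifs with h
      · apply hsupp
        intro hc
        obtain ⟨w, hw, hwv⟩ := mem_image.1 hc
        exact hv (hf (vertex_mem hs hw) h hwv ▸ hw)
      · rfl
    · rw [sum_image (injOn_face hf hs)] at hsum
      rw [← hsum]
      apply sum_congr rfl
      intro v hv
      simp only [G]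
      rw [if_pos (vertex_mem hs hv)]
  refine ⟨{
    toFun := fun x => ⟨F x.1, hFmem x.1 x.2⟩
    invFun := fun y => ⟨G y.1, hGmem y.1 y.2⟩
    left_inv := ?_
    right_inv := ?_
    continuous_toFun := ?_
    continuous_invFun := ?_ }⟩
  · rintro ⟨x, hx0, s, hs, hsupp, hsum⟩
    apply Subtype.ext
    funext v
    simp only [G]
    split_ifs with h
    · exact hF x s hs hsupp v h
    · symm
      apply hsupp
      intro hv
      exact h (vertex_mem hs hv)
  · rintro ⟨y, hy0, A, hA, hsupp, hsum⟩
    obtain ⟨s, hs, rfl⟩ := h2 A hA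
    apply Subtype.ext
    funext n
    have hGs : ∀ v, v ∉ s → G y v = 0 := by
      intro v hv
      simp only [G]
      split_ifs with h
      · apply hsupp
        intro hc
        obtain ⟨w, hw, hwv⟩ := mem_image.1 hc
        exact hv (hf (vertex_mem hs hw) h hwv ▸ hw)
      · rfl
    by_cases hn : n ∈ s.image f
    · obtain ⟨v, hv, rfl⟩ := mem_image.1 hn
      show F (G y) (f v) = y (f v)
      rw [hF (G y) s hs hGs v (vertex_mem hs hv)]
      simp only [G]
      rw [if_pos (vertex_mem hs hv)]
    · show F (G y) n = y n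
      rw [hF0 (G y) s hs hGs n hn, hsupp n hn]
  · apply Continuous.subtype_mk
    apply continuous_pi
    intro n
    simp only [F]
    apply continuous_finsetSum
    intro v _
    split_ifs
    · exact (continuous_apply v).comp continuous_subtype_val
    · exact continuous_const
  · apply Continuous.subtype_mk
    apply continuous_pi
    intro v
    simp only [G]
    split_ifs
    · exact (continuous_apply (f v)).comp continuous_subtype_val
    · exact continuous_const

lemma isBall_of_run [Fintype V] (K : PreAbstractSimplicialComplex V) (f : V → ℕ)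
    (hf : Set.InjOn f {v | {v} ∈ K.faces}) {L : List ℕ} {mvs : List (Bool × List ℕ × ℕ)}
    {m n : ℕ} (h1 : ∀ s ∈ K.faces, ∃ A ∈ L, s.image f ⊆ bitsF A)
    (h2 : ∀ A ∈ L, ∃ s ∈ K.faces, s.image f = bitsF A)
    (h : runM L mvs = some [m]) (hm : (bitsF m).card = n + 1) : IsBall n K := by
  obtain ⟨e1⟩ := realization_homeo K f hf (setOf' L)
    (by
      intro s hs
      obtain ⟨A, hA, hsA⟩ := h1 s hs
      exact ⟨bitsF A, ⟨A, hA, rfl⟩, hsA⟩)
    (by
      rintro A ⟨m, hm, rfl⟩
      exact h2 m hm)
  obtain ⟨e2⟩ := ball_of_run h hm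
  exact ⟨e1.trans e2⟩

end Pool.Agent.Helper57.Ced
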