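import Pool.Agent.Helper57.Ced.Stellar

open Finset

namespace Pool.Agent.Helper57.Ced

/-- the corner simplex in Euclidean `n`-space -/
def corner (n : ℕ) : Set (EuclideanSpace ℝ (Fin n)) :=
  {y | (∀ i, 0 ≤ y i) ∧ ∑ i, y i ≤ 1}

lemma convex_corner (n : ℕ) : Convex ℝ (corner n) := by
  intro x hx y hy a b ha hb hab
  refine ⟨fun i => ?_, ?_⟩
  · have h1 := hx.1 i
    have h2 := hy.1 i
    simp only [PiLp.add_apply, PiLp.smul_apply, smul_eq_mul]
    positivity
  · simp only [PiLp.add_apply, PiLp.smul_apply, smul_eq_mul]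
    rw [sum_add_distrib, ← mul_sum, ← mul_sum]
    have h1 := hx.2
    have h2 := hy.2
    calc a * ∑ i, x i + b * ∑ i, y i ≤ a * 1 + b * 1 := by gcongr
      _ = 1 := by rw [mul_one, mul_one, hab]

lemma continuous_coord {n : ℕ} (i : Fin n) :
    Continuous (fun y : EuclideanSpace ℝ (Fin n) => y i) := by
  fun_prop

lemma isClosed_corner (n : ℕ) : IsClosed (corner n) := by
  have : corner n = (⋂ i, {y : EuclideanSpace ℝ (Fin n) | 0 ≤ y i}) ∩
      {y | ∑ i, y i ≤ 1} := by
    ext y; simp [corner]
  rw [this]
  apply IsClosed.inter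
  · apply isClosed_iInter
    intro i
    exact isClosed_le continuous_const (continuous_coord i)
  · exact isClosed_le (continuous_finsetSum _ fun i _ => continuous_coord i) continuous_const

lemma isBounded_corner (n : ℕ) : Bornology.IsBounded (corner n) := by
  rw [Metric.isBounded_iff_subset_closedBall 0]
  refine ⟨Real.sqrt n, ?_⟩
  intro y hy
  rw [Metric.mem_closedBall, dist_zero_right, EuclideanSpace.norm_eq]
  apply Real.sqrt_le_sqrt
  calc ∑ i, ‖y i‖ ^ 2 ≤ ∑ _i : Fin n, (1 : ℝ) := by
        apply sum_le_sum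
        intro i _
        have h0 := hy.1 i
        have h1 : y i ≤ 1 := (single_le_sum (f := fun i => y i) (fun i _ => hy.1 i)
          (mem_univ i)).trans hy.2
        rw [Real.norm_of_nonneg h0]
        nlinarith
    _ = n := by simp

lemma interior_corner (n : ℕ) : (interior (corner n)).Nonempty := by
  let U : Set (EuclideanSpace ℝ (Fin n)) :=
    (⋂ i, {y : EuclideanSpace ℝ (Fin n) | 0 < y i}) ∩ {y | ∑ i, y i < 1}
  have hU : IsOpen U := by
    apply IsOpen.inter
    · apply isOpen_iInter_of_finite
      intro i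
      exact isOpen_lt continuous_const (continuous_coord i)
    · exact isOpen_lt (continuous_finsetSum _ fun i _ => continuous_coord i) continuous_const
  have hsub : U ⊆ corner n := by
    rintro y ⟨h1, h2⟩
    refine ⟨fun i => ?_, le_of_lt h2⟩
    have := Set.mem_iInter.1 h1 i
    exact le_of_lt this
  have hmem : (WithLp.toLp 2 (fun _ : Fin n => (1 : ℝ) / (n + 1))) ∈ U := by
    refine ⟨?_, ?_⟩
    · rw [Set.mem_iInter]
      intro i
      show (0 : ℝ) < 1 / (n + 1)
      positivity
    · show ∑ _i : Fin n, (1 : ℝ) / (n + 1) < 1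
      rw [sum_const, card_univ, Fintype.card_fin, nsmul_eq_mul, mul_one_div, div_lt_one (by positivity)]
      linarith
  exact ⟨_, interior_maximal hsub hU hmem⟩

lemma corner_homeo_ball (n : ℕ) :
    Nonempty (corner n ≃ₜ Metric.closedBall (0 : EuclideanSpace ℝ (Fin n)) 1) := by
  obtain ⟨h, _, h2, _⟩ := exists_homeomorph_image_interior_closure_frontier_eq_unitBall
    (convex_corner n) (interior_corner n) (isBounded_corner n)
  rw [(isClosed_corner n).closure_eq] at h2
  exact ⟨(h.image (corner n)).trans (Homeomorph.setCongr h2)⟩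

/-- a single simplex with `n + 1` vertices is homeomorphic to the corner simplex -/
lemma simplex_homeo_corner {n : ℕ} {F : Finset ℕ} (hF : F.card = n + 1) :
    Nonempty (realN {F} ≃ₜ corner n) := by
  classical
  let e : F ≃ Fin (n + 1) := F.equivFinOfCardEq hF
  let a : Fin (n + 1) → ℕ := fun i => (e.symm i : ℕ)
  have ha : ∀ i, a i ∈ F := fun i => (e.symm i).2
  have hainj : Function.Injective a := fun i j h => e.symm.injective (Subtype.ext h)
  have hsum : ∀ x : ℕ → ℝ, ∑ v ∈ F, x v = ∑ i, x (a i) := by
    intro x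
    rw [← Finset.sum_coe_sort F]
    exact (Equiv.sum_comp e.symm (fun v : F => x v)).symm
  let g : EuclideanSpace ℝ (Fin n) → Fin (n + 1) → ℝ := fun y =>
    Fin.snoc (α := fun _ => ℝ) (fun i => y i) (1 - ∑ i, y i)
  have hg0 : ∀ y i, g y (Fin.castSucc i) = y i := by
    intro y i; simp [g]
  have hg1 : ∀ y, g y (Fin.last n) = 1 - ∑ i, y i := by
    intro y; simp [g]
  let inv : EuclideanSpace ℝ (Fin n) → ℕ → ℝ := fun y v =>
    if h : v ∈ F then g y (e ⟨v, h⟩) else 0
  have hinva : ∀ y i, inv y (a i) = g y i := by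
    intro y i
    simp only [inv]
    rw [dif_pos (ha i)]
    congr 1
    exact e.apply_symm_apply i
  have hgcont : ∀ i, Continuous (fun y => g y i) := by
    intro i
    refine Fin.lastCases ?_ (fun j => ?_) i
    · simp_rw [hg1]
      exact continuous_const.sub (continuous_finsetSum _ fun i _ => continuous_coord i)
    · simp_rw [hg0]
      exact continuous_coord j
  refine ⟨{
    toFun := fun x => ⟨WithLp.toLp 2 (fun i => x.1 (a (Fin.castSucc i))), ?_⟩
    invFun := fun y => ⟨inv y.1, ?_⟩
    left_inv := ?_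
    right_inv := ?_
    continuous_toFun := ?_
    continuous_invFun := ?_ }⟩
  · obtain ⟨x, hx0, s, hs, hsupp, hx1⟩ := x
    rw [Set.mem_singleton_iff] at hs
    subst hs
    refine ⟨fun i => hx0 _, ?_⟩
    rw [hsum, Fin.sum_univ_castSucc] at hx1
    have := hx0 (a (Fin.last n))
    simp only
    linarith
  · obtain ⟨y, hy0, hy1⟩ := y
    have hgnn : ∀ i, 0 ≤ g y i := by
      intro i
      refine Fin.lastCases ?_ (fun j => ?_) i
      · rw [hg1]; linarith
      · rw [hg0]; exact hy0 j
    refine ⟨?_, F, rfl, ?_, ?_⟩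
    · intro v
      simp only [inv]
      split_ifs with h
      · exact hgnn _
      · exact le_rfl
    · intro v hv
      simp only [inv]
      rw [dif_neg hv]
    · rw [hsum, Fin.sum_univ_castSucc]
      simp only [hinva, hg0, hg1]
      ring
  · rintro ⟨x, hx0, s, hs, hsupp, hx1⟩
    apply Subtype.ext
    rw [Set.mem_singleton_iff] at hs
    subst hs
    funext v
    simp only [inv]
    split_ifs with h
    · have key : ∀ i, g (WithLp.toLp 2 (fun i => x (a (Fin.castSucc i)))) i = x (a i) := by
        intro i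
        refine Fin.lastCases ?_ (fun j => ?_) i
        · rw [hg1]
          rw [hsum, Fin.sum_univ_castSucc] at hx1
          simp only
          linarith
        · rw [hg0]
      rw [key]
      show x (e.symm (e ⟨v, h⟩) : ℕ) = x v
      rw [Equiv.symm_apply_apply]
    · exact (hsupp v h).symm
  · rintro ⟨y, hy0, hy1⟩
    apply Subtype.ext
    ext i
    show inv y (a (Fin.castSucc i)) = y i
    rw [hinva, hg0]
  · apply Continuous.subtype_mk
    apply (PiLp.continuous_toLp 2 _).comp
    apply continuous_pi
    intro i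
    exact (continuous_apply (a (Fin.castSucc i))).comp continuous_subtype_val
  · apply Continuous.subtype_mk
    apply continuous_pi
    intro v
    simp only [inv]
    by_cases h : v ∈ F
    · simp only [dif_pos h]
      exact (hgcont _).comp continuous_subtype_val
    · simp only [dif_neg h]
      exact continuous_const

lemma ball_of_run {L : List ℕ} {mvs : List (Bool × List ℕ × ℕ)} {m : ℕ} {n : ℕ}
    (h : runM L mvs = some [m]) (hm : (bitsF m).card = n + 1) :
    Nonempty (realN (setOf' L) ≃ₜ Metric.closedBall (0 : EuclideanSpace ℝ (Fin n)) 1) := by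
  obtain ⟨e1⟩ := runM_homeo h
  have e : setOf' [m] = {bitsF m} := by
    ext s
    simp only [setOf', Set.mem_ofPred_eq, List.mem_singleton, Set.mem_singleton_iff]
    constructor
    · rintro ⟨_, rfl, rfl⟩; rfl
    · rintro rfl; exact ⟨m, rfl, rfl⟩
  rw [e] at e1
  obtain ⟨e2⟩ := simplex_homeo_corner hm
  obtain ⟨e3⟩ := corner_homeo_ball n
  exact ⟨(e1.trans e2).trans e3⟩

end Pool.Agent.Helper57.Ced
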