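import Pool.Agent.Helper57.Ced.Defs

open Finset

namespace Pool.Agent.Helper57.Ced

/-- realization of a set of generating simplices with vertices in `ℕ` -/
def realN (L : Set (Finset ℕ)) : Set (ℕ → ℝ) :=
  {x | (∀ v, 0 ≤ x v) ∧ ∃ s ∈ L, (∀ v, v ∉ s → x v = 0) ∧ ∑ v ∈ s, x v = 1}

/-- stellar subdivision at `F` with new vertex `z` -/
def sdS (L : Set (Finset ℕ)) (F : Finset ℕ) (z : ℕ) : Set (Finset ℕ) :=
  {A | A ∈ L ∧ ¬ F ⊆ A} ∪ {B | ∃ A ∈ L, F ⊆ A ∧ ∃ x ∈ F, B = insert z (A.erase x)}

noncomputable def phi (F : Finset ℕ) (hF : F.Nonempty) (z : ℕ) (x : ℕ → ℝ) : ℕ → ℝ :=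
  fun v => if v = z then (F.card : ℝ) * F.inf' hF x else
    if v ∈ F then x v - F.inf' hF x else x v

noncomputable def psi (F : Finset ℕ) (z : ℕ) (y : ℕ → ℝ) : ℕ → ℝ :=
  fun v => if v = z then 0 else if v ∈ F then y v + y z / (F.card : ℝ) else y v

lemma continuous_phi (F : Finset ℕ) (hF : F.Nonempty) (z : ℕ) : Continuous (phi F hF z) := by
  have hm : Continuous (fun x : ℕ → ℝ => F.inf' hF x) := by
    have := Continuous.finset_inf'_apply (f := fun (i : ℕ) (x : ℕ → ℝ) => x i) hF
      (fun i _ => continuous_apply i)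
    exact this
  unfold phi
  apply continuous_pi
  intro v
  split_ifs
  · exact continuous_const.mul hm
  · exact (continuous_apply v).sub hm
  · exact continuous_apply v

lemma continuous_psi (F : Finset ℕ) (z : ℕ) : Continuous (psi F z) := by
  unfold psi
  apply continuous_pi
  intro v
  split_ifs
  · exact continuous_const
  · exact (continuous_apply v).add ((continuous_apply z).div_const _)
  · exact continuous_apply v

lemma inf'_nonneg {F : Finset ℕ} (hF : F.Nonempty) {x : ℕ → ℝ} (hx : ∀ v, 0 ≤ x v) :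
    0 ≤ F.inf' hF x := by
  rw [Finset.le_inf'_iff]
  exact fun v _ => hx v

lemma inf'_eq_zero {F : Finset ℕ} (hF : F.Nonempty) {x : ℕ → ℝ} (hx : ∀ v, 0 ≤ x v)
    (h : ∃ u ∈ F, x u = 0) : F.inf' hF x = 0 := by
  obtain ⟨u, hu, hu0⟩ := h
  apply le_antisymm _ (inf'_nonneg hF hx)
  rw [← hu0]
  exact Finset.inf'_le _ hu

section
variable {L : Set (Finset ℕ)} {F : Finset ℕ} {z : ℕ}

lemma phi_mem (hF : F.Nonempty) (hzF : z ∉ F) (hz : ∀ A ∈ L, z ∉ A) {x : ℕ → ℝ}
    (hx : x ∈ realN L) : phi F hF z x ∈ realN (sdS L F z) := by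
  obtain ⟨hx0, A, hA, hsupp, hsum⟩ := hx
  have hm0 := inf'_nonneg hF hx0
  have hmle : ∀ v ∈ F, F.inf' hF x ≤ x v := fun v hv => Finset.inf'_le _ hv
  refine ⟨?_, ?_⟩
  · intro v
    unfold phi
    split_ifs with h1 h2
    · positivity
    · have := hmle v h2; linarith
    · exact hx0 v
  · by_cases hFA : F ⊆ A
    · obtain ⟨x0, hx0F, hx0m⟩ := Finset.exists_mem_eq_inf' hF x
      refine ⟨insert z (A.erase x0), Or.inr ⟨A, hA, hFA, x0, hx0F, rfl⟩, ?_, ?_⟩
      · intro v hv
        rw [mem_insert, mem_erase, not_or, not_and_or] at hv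
        obtain ⟨hv1, hv2⟩ := hv
        unfold phi
        rw [if_neg hv1]
        rcases hv2 with hv2 | hv2
        · push Not at hv2
          subst hv2
          rw [if_pos hx0F, hx0m]; ring
        · rw [if_neg (fun h => hv2 (hFA h)), hsupp v hv2]
      · have hzA : z ∉ A := hz A hA
        rw [sum_insert (by rw [mem_erase]; exact fun h => hzA h.2)]
        have e1 : phi F hF z x z = (F.card : ℝ) * F.inf' hF x := by simp [phi]
        have e2 : ∑ v ∈ A.erase x0, phi F hF z x v = ∑ v ∈ A, phi F hF z x v := by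
          apply sum_subset (erase_subset _ _)
          intro v hv hv'
          have : v = x0 := by
            by_contra hne
            exact hv' (mem_erase.2 ⟨hne, hv⟩)
          subst this
          unfold phi
          rw [if_neg (show ¬ v = z from fun h => hzA (h ▸ hv)), if_pos hx0F, hx0m]; ring
        have e3 : ∑ v ∈ A, phi F hF z x v = ∑ v ∈ A, x v - (F.card : ℝ) * F.inf' hF x := by
          have : ∀ v ∈ A, phi F hF z x v = x v - (if v ∈ F then F.inf' hF x else 0) := by
            intro v hv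
            unfold phi
            rw [if_neg (show ¬ v = z from fun h => hzA (h ▸ hv))]
            split_ifs <;> ring
          rw [sum_congr rfl this, sum_sub_distrib, ← sum_filter, Finset.filter_mem_eq_inter,
            inter_eq_right.2 hFA, sum_const, nsmul_eq_mul]
        rw [e1, e2, e3, hsum]; ring
    · have hex : ∃ u ∈ F, x u = 0 := by
        rw [not_subset] at hFA
        obtain ⟨u, huF, huA⟩ := hFA
        exact ⟨u, huF, hsupp u huA⟩
      have hm := inf'_eq_zero hF hx0 hex
      have hphi : phi F hF z x = x := by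
        funext v
        unfold phi
        rw [hm]
        split_ifs with h1 h2
        · rw [h1, hsupp z (hz A hA)]; ring
        · ring
        · rfl
      rw [hphi]
      exact ⟨A, Or.inl ⟨hA, hFA⟩, hsupp, hsum⟩

lemma psi_mem (hF : F.Nonempty) (hzF : z ∉ F) (hz : ∀ A ∈ L, z ∉ A) {y : ℕ → ℝ}
    (hy : y ∈ realN (sdS L F z)) : psi F z y ∈ realN L := by
  obtain ⟨hy0, B, hB, hsupp, hsum⟩ := hy
  have hcard : (0 : ℝ) < F.card := by exact_mod_cast card_pos.2 hF
  refine ⟨?_, ?_⟩
  · intro v
    unfold psi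
    split_ifs with h1 h2
    · exact le_rfl
    · have := hy0 v; have := hy0 z; positivity
    · exact hy0 v
  · rcases hB with ⟨hBL, hFB⟩ | ⟨A, hA, hFA, x0, hx0, rfl⟩
    · have hyz : y z = 0 := hsupp z (hz B hBL)
      have hpsi : psi F z y = y := by
        funext v
        unfold psi
        rw [hyz]
        split_ifs with h1 h2
        · rw [h1, hyz]
        · ring
        · rfl
      rw [hpsi]
      exact ⟨B, hBL, hsupp, hsum⟩
    · have hzA : z ∉ A := hz A hA
      refine ⟨A, hA, ?_, ?_⟩
      · intro v hv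
        unfold psi
        split_ifs with h1 h2
        · rfl
        · exact absurd (hFA h2) hv
        · apply hsupp
          rw [mem_insert, mem_erase]
          rintro (h | h)
          · exact h1 h
          · exact hv h.2
      · have hy0' : y x0 = 0 := by
          apply hsupp
          rw [mem_insert, mem_erase]
          rintro (h | h)
          · exact hzF (h ▸ hx0)
          · exact h.1 rfl
        rw [sum_insert (by rw [mem_erase]; exact fun h => hzA h.2)] at hsum
        have e2 : ∑ v ∈ A.erase x0, y v = ∑ v ∈ A, y v := by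
          apply sum_subset (erase_subset _ _)
          intro v hv hv'
          have : v = x0 := by
            by_contra hne
            exact hv' (mem_erase.2 ⟨hne, hv⟩)
          rw [this, hy0']
        have e3 : ∑ v ∈ A, psi F z y v = ∑ v ∈ A, y v + y z := by
          have : ∀ v ∈ A, psi F z y v = y v + (if v ∈ F then y z / (F.card : ℝ) else 0) := by
            intro v hv
            unfold psi
            rw [if_neg (show ¬ v = z from fun h => hzA (h ▸ hv))]
            split_ifs <;> ring
          rw [sum_congr rfl this, sum_add_distrib, ← sum_filter, Finset.filter_mem_eq_inter,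
            inter_eq_right.2 hFA, sum_const, nsmul_eq_mul]
          field_simp
        rw [e3, ← e2]; linarith

lemma psi_phi (hF : F.Nonempty) (_hzF : z ∉ F) (hz : ∀ A ∈ L, z ∉ A) {x : ℕ → ℝ}
    (hx : x ∈ realN L) : psi F z (phi F hF z x) = x := by
  obtain ⟨hx0, A, hA, hsupp, hsum⟩ := hx
  have hcard : (F.card : ℝ) ≠ 0 := by exact_mod_cast (card_pos.2 hF).ne'
  have hphiz : phi F hF z x z = (F.card : ℝ) * F.inf' hF x := by simp [phi]
  funext v
  unfold psi
  rw [hphiz]
  split_ifs with h1 h2
  · rw [h1, hsupp z (hz A hA)]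
  · unfold phi
    rw [if_neg h1, if_pos h2]
    field_simp
    ring
  · unfold phi
    rw [if_neg h1, if_neg h2]

lemma phi_psi (hF : F.Nonempty) (hzF : z ∉ F) (hz : ∀ A ∈ L, z ∉ A) {y : ℕ → ℝ}
    (hy : y ∈ realN (sdS L F z)) : phi F hF z (psi F z y) = y := by
  obtain ⟨hy0, B, hB, hsupp, hsum⟩ := hy
  have hcard : (0 : ℝ) < F.card := by exact_mod_cast card_pos.2 hF
  -- some vertex of F has zero coordinate
  have hex : ∃ u ∈ F, y u = 0 := by
    rcases hB with ⟨hBL, hFB⟩ | ⟨A, hA, hFA, x0, hx0, rfl⟩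
    · rw [not_subset] at hFB
      obtain ⟨u, huF, huB⟩ := hFB
      exact ⟨u, huF, hsupp u huB⟩
    · refine ⟨x0, hx0, hsupp x0 ?_⟩
      rw [mem_insert, mem_erase]
      rintro (h | h)
      · exact hzF (h ▸ hx0)
      · exact h.1 rfl
  have hne : ∀ v ∈ F, v ≠ z := fun v hv h => hzF (h ▸ hv)
  have hpsi : ∀ v ∈ F, psi F z y v = y v + y z / (F.card : ℝ) := by
    intro v hv
    unfold psi
    rw [if_neg (hne v hv), if_pos hv]
  have hm : F.inf' hF (psi F z y) = y z / (F.card : ℝ) := by
    obtain ⟨u, hu, hu0⟩ := hex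
    apply le_antisymm
    · have := Finset.inf'_le (psi F z y) hu
      rw [hpsi u hu, hu0, zero_add] at this
      exact this
    · rw [Finset.le_inf'_iff]
      intro v hv
      rw [hpsi v hv]
      have := hy0 v
      linarith
  funext v
  unfold phi
  rw [hm]
  split_ifs with h1 h2
  · rw [h1]; field_simp
  · rw [hpsi v h2]; ring
  · unfold psi
    rw [if_neg h1, if_neg h2]

/-- a stellar subdivision does not change the realization up to homeomorphism -/
noncomputable def stellarHomeo (hF : F.Nonempty) (hzF : z ∉ F) (hz : ∀ A ∈ L, z ∉ A) :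
    realN L ≃ₜ realN (sdS L F z) where
  toFun x := ⟨phi F hF z x.1, phi_mem hF hzF hz x.2⟩
  invFun y := ⟨psi F z y.1, psi_mem hF hzF hz y.2⟩
  left_inv x := Subtype.ext (psi_phi hF hzF hz x.2)
  right_inv y := Subtype.ext (phi_psi hF hzF hz y.2)
  continuous_toFun := by
    apply Continuous.subtype_mk
    exact (continuous_phi F hF z).comp continuous_subtype_val
  continuous_invFun := by
    apply Continuous.subtype_mk
    exact (continuous_psi F z).comp continuous_subtype_val

end

/-! ### Bit masks -/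

/-- the finite set of positions of the bits of `m` -/
def bitsF (m : ℕ) : Finset ℕ := (Finset.range (m + 1)).filter (fun v => m.testBit v = true)

lemma mem_bitsF (m v : ℕ) : v ∈ bitsF m ↔ m.testBit v = true := by
  unfold bitsF
  simp only [mem_filter, mem_range, and_iff_right_iff_imp]
  intro h
  have h1 : 2 ^ v ≤ m := Nat.ge_two_pow_of_testBit h
  have h2 : v < 2 ^ v := Nat.lt_two_pow_self
  omega

lemma bitsF_injective : Function.Injective bitsF := by
  intro a b h
  apply Nat.eq_of_testBit_eq
  intro i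
  have := Finset.ext_iff.1 h i
  rw [mem_bitsF, mem_bitsF] at this
  exact Bool.eq_iff_iff.2 this

/-- the mask of a list of positions -/
def maskOf (F : List ℕ) : ℕ := F.foldr (fun x m => m ||| (2 ^ x)) 0

lemma bitsF_maskOf (F : List ℕ) : bitsF (maskOf F) = F.toFinset := by
  induction F with
  | nil =>
    ext v
    rw [mem_bitsF]
    simp [maskOf]
  | cons a F ih =>
    ext v
    have h := Finset.ext_iff.1 ih v
    rw [mem_bitsF] at h ⊢
    have e : maskOf (a :: F) = maskOf F ||| 2 ^ a := rfl
    rw [e, Nat.testBit_or, Nat.testBit_two_pow, List.toFinset_cons, mem_insert, ← h]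
    simp only [Bool.or_eq_true, decide_eq_true_eq]
    constructor
    · rintro (h | h)
      · exact Or.inr h
      · exact Or.inl h.symm
    · rintro (h | h)
      · exact Or.inr h.symm
      · exact Or.inl h

/-- remove bit `x`, add bit `z` -/
def swapBit (A x z : ℕ) : ℕ := (A ^^^ (2 ^ x)) ||| (2 ^ z)

lemma bitsF_swapBit {A x z : ℕ} (hx : x ∈ bitsF A) :
    bitsF (swapBit A x z) = insert z ((bitsF A).erase x) := by
  ext v
  rw [mem_bitsF] at hx
  rw [mem_bitsF, mem_insert, mem_erase, mem_bitsF]
  unfold swapBit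
  rw [Nat.testBit_or, Nat.testBit_xor, Nat.testBit_two_pow, Nat.testBit_two_pow]
  by_cases hv : x = v
  · subst hv
    by_cases hz : z = x
    · simp [hz]
    · simp [hx, hz, Ne.symm hz]
  · by_cases hz : z = v
    · simp [hz]
    · simp [hv, hz, Ne.symm hz, Ne.symm hv]

lemma subset_iff_land (F A : ℕ) : bitsF F ⊆ bitsF A ↔ A &&& F = F := by
  constructor
  · intro h
    apply Nat.eq_of_testBit_eq
    intro i
    rw [Nat.testBit_and]
    by_cases hi : F.testBit i = true
    · have := h ((mem_bitsF F i).2 hi)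
      rw [mem_bitsF] at this
      rw [this, hi]; rfl
    · rw [Bool.not_eq_true] at hi
      rw [hi, Bool.and_false]
  · intro h v hv
    rw [mem_bitsF] at hv ⊢
    rw [← h, Nat.testBit_and, Bool.and_eq_true] at hv
    exact hv.1

/-- the set of faces with masks in the list `L` -/
def setOf' (L : List ℕ) : Set (Finset ℕ) := {s | ∃ m ∈ L, bitsF m = s}

def sdM (L : List ℕ) (F : List ℕ) (z : ℕ) : List ℕ :=
  L.flatMap (fun A => if A &&& maskOf F = maskOf F then F.map (fun x => swapBit A x z) else [A])

lemma setOf'_sdM (L : List ℕ) (F : List ℕ) (z : ℕ) :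
    setOf' (sdM L F z) = sdS (setOf' L) F.toFinset z := by
  ext s
  simp only [setOf', sdM, sdS, Set.mem_ofPred_eq, Set.mem_union, List.mem_flatMap]
  constructor
  · rintro ⟨m, ⟨A, hA, hm⟩, rfl⟩
    split_ifs at hm with h
    · rw [← subset_iff_land, bitsF_maskOf] at h
      rw [List.mem_map] at hm
      obtain ⟨x, hx, rfl⟩ := hm
      right
      refine ⟨bitsF A, ⟨A, hA, rfl⟩, h, x, List.mem_toFinset.2 hx, ?_⟩
      exact bitsF_swapBit (h (List.mem_toFinset.2 hx))
    · rw [← subset_iff_land, bitsF_maskOf] at h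
      rw [List.mem_singleton] at hm
      subst hm
      exact Or.inl ⟨⟨m, hA, rfl⟩, h⟩
  · rintro (⟨⟨A, hA, rfl⟩, hF⟩ | ⟨_, ⟨A, hA, rfl⟩, hF, x, hx, rfl⟩)
    · refine ⟨A, ⟨A, hA, ?_⟩, rfl⟩
      rw [if_neg]
      · exact List.mem_singleton.2 rfl
      · rw [← subset_iff_land, bitsF_maskOf]
        exact hF
    · refine ⟨swapBit A x z, ⟨A, hA, ?_⟩, ?_⟩
      · rw [if_pos]
        · exact List.mem_map.2 ⟨x, List.mem_toFinset.1 hx, rfl⟩
        · rw [← subset_iff_land, bitsF_maskOf]
          exact hF
      · exact bitsF_swapBit (hF hx)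

/-- remove duplicates -/
def dd : List ℕ → List ℕ
  | [] => []
  | a :: l => if (dd l).contains a then dd l else a :: dd l

/-- inclusion of lists, as a Boolean -/
def subM (L L' : List ℕ) : Bool := L.all (fun a => L'.contains a)

lemma subM_iff (L L' : List ℕ) : subM L L' = true ↔ ∀ a ∈ L, a ∈ L' := by
  unfold subM
  simp [List.all_eq_true]

lemma setOf'_eq {L L' : List ℕ} (h1 : subM L L' = true) (h2 : subM L' L = true) :
    setOf' L = setOf' L' := by
  rw [subM_iff] at h1 h2
  ext s
  constructor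
  · rintro ⟨m, hm, rfl⟩; exact ⟨m, h1 m hm, rfl⟩
  · rintro ⟨m, hm, rfl⟩; exact ⟨m, h2 m hm, rfl⟩

def freshM (L : List ℕ) (F : List ℕ) (z : ℕ) : Bool :=
  !F.isEmpty && !F.contains z && L.all (fun a => !a.testBit z)

/-- one move: `(true, F, z)` is the subdivision at `F` with new vertex `z`; `(false, F, z)` is the
inverse move removing the vertex `z` -/
def stepM (L : List ℕ) (mv : Bool × List ℕ × ℕ) : Option (List ℕ) :=
  if mv.1 then
    (if freshM L mv.2.1 mv.2.2 then some (dd (sdM L mv.2.1 mv.2.2)) else none)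
  else
    let L' := dd (L.map (fun A => if A.testBit mv.2.2 then
      (A ^^^ (2 ^ mv.2.2)) ||| maskOf mv.2.1 else A))
    if freshM L' mv.2.1 mv.2.2 && subM (sdM L' mv.2.1 mv.2.2) L && subM L (sdM L' mv.2.1 mv.2.2)
    then some L' else none

def runM : List ℕ → List (Bool × List ℕ × ℕ) → Option (List ℕ)
  | L, [] => some L
  | L, mv :: mvs => match stepM L mv with
    | none => none
    | some L' => runM L' mvs

lemma mem_dd (L : List ℕ) (a : ℕ) : a ∈ dd L ↔ a ∈ L := by
  induction L with
  | nil => simp [dd]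
  | cons b L ih =>
    rw [dd]
    split_ifs with h
    · rw [ih, List.mem_cons]
      constructor
      · exact Or.inr
      · rintro (rfl | h2)
        · rw [List.contains_iff_mem] at h
          exact ih.1 h
        · exact h2
    · rw [List.mem_cons, List.mem_cons, ih]

lemma setOf'_dd (L : List ℕ) : setOf' (dd L) = setOf' L := by
  ext s
  constructor
  · rintro ⟨m, hm, rfl⟩; exact ⟨m, (mem_dd L m).1 hm, rfl⟩
  · rintro ⟨m, hm, rfl⟩; exact ⟨m, (mem_dd L m).2 hm, rfl⟩

lemma freshM_spec {L : List ℕ} {F : List ℕ} {z : ℕ} (h : freshM L F z = true) :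
    F.toFinset.Nonempty ∧ z ∉ F.toFinset ∧ ∀ A ∈ setOf' L, z ∉ A := by
  unfold freshM at h
  rw [Bool.and_eq_true, Bool.and_eq_true] at h
  obtain ⟨⟨h1, h2⟩, h3⟩ := h
  refine ⟨?_, ?_, ?_⟩
  · cases F with
    | nil => simp at h1
    | cons a F => exact ⟨a, by simp⟩
  · rw [List.mem_toFinset]
    intro hc
    rw [← List.contains_iff_mem] at hc
    rw [hc] at h2
    simp at h2
  · rintro A ⟨m, hm, rfl⟩ hz
    rw [List.all_eq_true] at h3
    have := h3 m hm
    rw [mem_bitsF] at hz
    rw [hz] at this
    simp at this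

lemma stepM_homeo {L L' : List ℕ} {mv : Bool × List ℕ × ℕ} (h : stepM L mv = some L') :
    Nonempty (realN (setOf' L) ≃ₜ realN (setOf' L')) := by
  obtain ⟨b, F, z⟩ := mv
  unfold stepM at h
  cases b with
  | true =>
    simp only [if_true] at h
    split_ifs at h with h1
    obtain ⟨hF, hzF, hz⟩ := freshM_spec h1
    simp only [Option.some.injEq] at h
    subst h
    rw [setOf'_dd, setOf'_sdM]
    exact ⟨stellarHomeo hF hzF hz⟩
  | false =>
    simp only [Bool.false_eq_true, if_false] at h
    split_ifs at h with h1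
    rw [Bool.and_eq_true, Bool.and_eq_true] at h1
    obtain ⟨⟨h1, h2⟩, h3⟩ := h1
    simp only [Option.some.injEq] at h
    rw [h] at h1 h2 h3
    obtain ⟨hF, hzF, hz⟩ := freshM_spec h1
    have e := setOf'_eq h3 h2
    rw [e, setOf'_sdM]
    exact ⟨(stellarHomeo hF hzF hz).symm⟩

lemma runM_homeo {L L' : List ℕ} {mvs : List (Bool × List ℕ × ℕ)}
    (h : runM L mvs = some L') : Nonempty (realN (setOf' L) ≃ₜ realN (setOf' L')) := by
  induction mvs generalizing L with
  | nil =>
    simp only [runM, Option.some.injEq] at h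
    subst h
    exact ⟨Homeomorph.refl _⟩
  | cons mv mvs ih =>
    rw [runM] at h
    cases hs : stepM L mv with
    | none => rw [hs] at h; simp at h
    | some L1 =>
      rw [hs] at h
      obtain ⟨e1⟩ := stepM_homeo hs
      obtain ⟨e2⟩ := ih h
      exact ⟨e1.trans e2⟩

end Pool.Agent.Helper57.Ced
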